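import Pool.Agent.H79.EW.AllG
import Pool.Agent.H26.EWR.GLO

/-!
# The critical mean value by ladders: the closed theorem (helper79)
-/

set_option autoImplicit false

namespace Pool.Agent.H79.EW

open Pool.Agent.H24.LVP Pool.Agent.H24.CL Pool.Agent.H79.PL Pool.Agent.H26.EW

theorem wGLO : T_GLO := Pool.Agent.H26.EW.pf_GLO rMP wWOK wINT

theorem wSEE : Pool.Agent.H79.HF.T_SEE fun L => L := see_of wGLO

/-- the critical mean value -/
theorem closed : ∀ k : ℕ, 3 ≤ k → ∃ C : ℝ, ∀ N : ℕ, 1 ≤ N →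
    ((Pool.Agent.H22.VM.sols (k * (k + 1) / 2) k N).card : ℝ) ≤
      C * (N : ℝ) ^ (k * (k + 1) / 2) * (1 + Real.log N) ^ (1 / 2 : ℝ) :=
  Pool.Agent.H65.PLH.lad_of_see wSEE

end Pool.Agent.H79.EW
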