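import Pool.Agent.H79.EST.SRPd
import Pool.Agent.H26.EW.TargetsT

/-!
# Row SEE: the data (helper79)
-/

set_option autoImplicit false

open Finset MeasureTheory

namespace Pool.Agent.H79.EW

open Pool.Agent.H24.CL Pool.Agent.H24.LV Pool.Agent.H26.ES Pool.Agent.H22.LVP Pool.Agent.H79.EST

/-- the good lines at a position -/
def gL (k : ℕ) (S : Finset ℕ) (V : Set (X k)) (A0 : ℕ → Set (X k)) (E2 : ℕ → ℕ → Set (X k))
    (τ : ℝ) (p y : ℕ) : Set (X k) :=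
  Uns k p (GdL k p (A0 p) V τ) y ∩ GdL k p (sA S A0 E2 p) V τ

theorem see_mass (k : ℕ) (hk : 3 ≤ k) (hGM : L_GM) (S : Finset ℕ)
    (V : Set (X k)) (A0 : ℕ → Set (X k)) (E2 : ℕ → ℕ → Set (X k)) (m τ Ω lo ρ₀ : ℝ)
    (hm : 1 ≤ m) (hτ : 0 < τ) (hΩ : 0 ≤ Ω) (hlo : 0 ≤ lo)
    (hpr : ∀ p ∈ S, p.Prime ∧ k < p) (hV : MeasurableSet V)
    (hA0 : ∀ p ∈ S, MeasurableSet (A0 p)) (hE2 : ∀ p ∈ S, ∀ q ∈ S, p ≠ q → MeasurableSet (E2 p q))
    (hAc : ∀ p ∈ S, Cnt (H k p k) (A0 p) m)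
    (hE2v : ∀ p ∈ S, ∀ q ∈ S, p ≠ q → (p : ℝ) ^ KN k * volume.real (E2 p q) ≤ lo * Ω)
    (hc : (S.card : ℝ) * lo ≤ ρ₀ / 2) (p : ℕ) (hp : p ∈ S)
    (h : ρ₀ * Ω ≤ (p : ℝ) ^ (KN k - k) * ((1 / (p : ℝ)) * ∑ y ∈ range p,
      volume.real {a : X k | a ∈ Uns k p (GdL k p (A0 p) V τ) y ∧ phi p y a ∈ V})) :
    ρ₀ / 2 * Ω ≤ (p : ℝ) ^ (KN k - k) * ((1 / (p : ℝ)) * ∑ y ∈ range p,
      volume.real {a : X k | a ∈ gL k S V A0 E2 τ p y ∧ phi p y a ∈ V}) := by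
  have hk1 : 1 ≤ k := by omega
  have hAm := srp_sA_meas S A0 E2 hA0 hE2
  have hsub : ∀ p, sA S A0 E2 p ⊆ A0 p := fun p => Set.sdiff_subset
  have gm0 := hGM k p hk1 (hpr p hp).1.one_lt.le (A0 p) V τ m (hA0 p hp) hV hτ hm (hAc p hp)
  have hp0 : 0 < (p : ℝ) := by exact_mod_cast (hpr p hp).1.pos
  -- the lost mass
  have h2 : (p : ℝ) ^ (KN k - k) * volume.real
      (GdL k p (A0 p) V τ \ GdL k p (sA S A0 E2 p) V τ) ≤ (S.card : ℝ) * (lo * Ω) := by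
    have h3 := gm0.2.2.2.2.2 (sA S A0 E2 p) (hsub p) (hAm p hp)
    have h4 : A0 p \ sA S A0 E2 p ⊆ ⋃ q ∈ S.erase p, E2 p q := by
      intro a ha
      by_contra h
      exact ha.2 ⟨ha.1, h⟩
    have h5 : volume.real (A0 p \ sA S A0 E2 p) ≤ ∑ q ∈ S.erase p, volume.real (E2 p q) :=
      le_trans (measureReal_mono h4 (measure_ne_top _ _)) (measureReal_biUnion_finset_le _ _)
    have h6 : (p : ℝ) ^ KN k = (p : ℝ) ^ (KN k - k) * (p : ℝ) ^ k := by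
      rw [← pow_add, Nat.sub_add_cancel (sr_KN_le k hk1)]
    calc (p : ℝ) ^ (KN k - k) * volume.real (GdL k p (A0 p) V τ \ GdL k p (sA S A0 E2 p) V τ) ≤
          (p : ℝ) ^ (KN k - k) * ((p : ℝ) ^ k * volume.real (A0 p \ sA S A0 E2 p)) :=
          mul_le_mul_of_nonneg_left h3 (by positivity)
      _ = (p : ℝ) ^ KN k * volume.real (A0 p \ sA S A0 E2 p) := by rw [h6]; ring
      _ ≤ (p : ℝ) ^ KN k * ∑ q ∈ S.erase p, volume.real (E2 p q) :=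
          mul_le_mul_of_nonneg_left h5 (by positivity)
      _ = ∑ q ∈ S.erase p, (p : ℝ) ^ KN k * volume.real (E2 p q) := by rw [Finset.mul_sum]
      _ ≤ ∑ _q ∈ S.erase p, lo * Ω := by
          apply Finset.sum_le_sum
          intro q hq
          rw [Finset.mem_erase] at hq
          exact hE2v p hp q hq.2 (Ne.symm hq.1)
      _ = ((S.erase p).card : ℝ) * (lo * Ω) := by rw [Finset.sum_const, nsmul_eq_mul]
      _ ≤ (S.card : ℝ) * (lo * Ω) := by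
          apply mul_le_mul_of_nonneg_right _ (mul_nonneg hlo hΩ)
          exact_mod_cast Finset.card_le_card (Finset.erase_subset _ _)
  -- the sum
  have h7 : ∀ y ∈ range p, volume.real {a : X k | a ∈ Uns k p (GdL k p (A0 p) V τ) y ∧
      phi p y a ∈ V} ≤ volume.real {a : X k | a ∈ gL k S V A0 E2 τ p y ∧ phi p y a ∈ V} +
      volume.real (GdL k p (A0 p) V τ \ GdL k p (sA S A0 E2 p) V τ) := by
    intro y _
    refine le_trans (measureReal_mono ?_ (measure_ne_top _ _)) (measureReal_union_le _ _)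
    rintro a ⟨ha, haV⟩
    by_cases hs : a ∈ GdL k p (sA S A0 E2 p) V τ
    · exact Or.inl ⟨⟨ha, hs⟩, haV⟩
    · exact Or.inr ⟨ha.1, hs⟩
  have h8 : (1 / (p : ℝ)) * ∑ y ∈ range p,
      volume.real {a : X k | a ∈ Uns k p (GdL k p (A0 p) V τ) y ∧ phi p y a ∈ V} ≤
      (1 / (p : ℝ)) * ∑ y ∈ range p,
        volume.real {a : X k | a ∈ gL k S V A0 E2 τ p y ∧ phi p y a ∈ V} +
      volume.real (GdL k p (A0 p) V τ \ GdL k p (sA S A0 E2 p) V τ) := by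
    have h9 := Finset.sum_le_sum h7
    rw [Finset.sum_add_distrib, Finset.sum_const, card_range, nsmul_eq_mul] at h9
    have h10 := mul_le_mul_of_nonneg_left h9 (show (0 : ℝ) ≤ 1 / (p : ℝ) by positivity)
    refine h10.trans (le_of_eq ?_)
    field_simp
  have h11 : (S.card : ℝ) * (lo * Ω) ≤ ρ₀ / 2 * Ω := by
    rw [← mul_assoc]
    exact mul_le_mul_of_nonneg_right hc hΩ
  have h12 := mul_le_mul_of_nonneg_left h8 (show (0 : ℝ) ≤ (p : ℝ) ^ (KN k - k) by positivity)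
  rw [mul_add] at h12
  linarith

open Classical in
theorem see_cells (k : ℕ) (hk : 3 ≤ k) (hGM : L_GM) (hSHP : T_SHP) (S : Finset ℕ)
    (V : Set (X k)) (A0 : ℕ → Set (X k)) (E2 : ℕ → ℕ → Set (X k)) (m τ : ℝ)
    (hm : 1 ≤ m) (hτ : 0 < τ) (p : ℕ) (hpp : p.Prime) (hkp : k < p) (hV : MeasurableSet V)
    (hA0 : MeasurableSet (A0 p)) (hAc : Cnt (H k p k) (A0 p) m) (hkm : k * m ≤ τ / 2 * p)
    (a : X k) (ha : a ∈ GdL k p (sA S A0 E2 p) V τ) :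
    τ / 2 * p ≤
      (((range p).filter fun y => a ∈ gL k S V A0 E2 τ p y ∧ phi p y a ∈ V).card : ℝ) := by
  have hk1 : 1 ≤ k := by omega
  have hp0 : 0 < (p : ℝ) := by exact_mod_cast hpp.pos
  have gm0 := hGM k p hk1 hpp.one_lt.le (A0 p) V τ m hA0 hV hτ hm hAc
  have hG := gm0.2.2.1 (H k p k) (sr_H_mono k p hk1) m hAc
  have haG : a ∈ GdL k p (A0 p) V τ := by
    obtain ⟨⟨h, hh, hA⟩, ht⟩ := ha
    exact ⟨⟨h, hh, hA.1⟩, ht⟩
  have h1 := hSHP.2 k p (GdL k p (A0 p) V τ) m hk1 hpp hkp hm hG a haG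
    ((range p).filter fun y => a ∉ Uns k p (GdL k p (A0 p) V τ) y) (Finset.filter_subset _ _)
    fun b hb => (Finset.mem_filter.1 hb).2
  have h2 : τ * p ≤ ((pos p V a).card : ℝ) := by
    have h3 := ha.2
    unfold hd at h3
    rwa [le_div_iff₀ hp0] at h3
  have h4 : (pos p V a).card ≤
      ((range p).filter fun y => a ∈ gL k S V A0 E2 τ p y ∧ phi p y a ∈ V).card +
      ((range p).filter fun y => a ∉ Uns k p (GdL k p (A0 p) V τ) y).card := by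
    refine le_trans (Finset.card_le_card ?_) (Finset.card_union_le _ _)
    intro y hy
    unfold pos at hy
    rw [Finset.mem_filter] at hy
    rw [Finset.mem_union, Finset.mem_filter, Finset.mem_filter]
    by_cases hu : a ∈ Uns k p (GdL k p (A0 p) V τ) y
    · exact Or.inl ⟨hy.1, ⟨hu, ha⟩, hy.2⟩
    · exact Or.inr ⟨hy.1, hu⟩
  have h5 : ((pos p V a).card : ℝ) ≤
      (((range p).filter fun y => a ∈ gL k S V A0 E2 τ p y ∧ phi p y a ∈ V).card : ℝ) +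
      (((range p).filter fun y => a ∉ Uns k p (GdL k p (A0 p) V τ) y).card : ℝ) := by
    exact_mod_cast h4
  linarith

theorem see_fib (k : ℕ) (hk : 3 ≤ k) (hGM : L_GM) (S : Finset ℕ)
    (V : Set (X k)) (A0 : ℕ → Set (X k)) (E2 : ℕ → ℕ → Set (X k)) (m τ : ℝ)
    (hm : 1 ≤ m) (hτ : 0 < τ) (hpr : ∀ p ∈ S, p.Prime) (hV : MeasurableSet V)
    (hA0 : ∀ p ∈ S, MeasurableSet (A0 p)) (hE2 : ∀ p ∈ S, ∀ q ∈ S, p ≠ q → MeasurableSet (E2 p q))
    (hAc : ∀ p ∈ S, Cnt (H k p k) (A0 p) m) :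
    ∀ p ∈ S, CntM (H k p k) (H k p 1) (GdL k p (sA S A0 E2 p) V τ) m := by
  intro p hp
  have hk1 : 1 ≤ k := by omega
  have hsub : sA S A0 E2 p ⊆ A0 p := Set.sdiff_subset
  have hc : Cnt (H k p k) (sA S A0 E2 p) m := sr_Cnt_mono (hAc p hp) hsub (le_refl _)
  exact (hGM k p hk1 (hpr p hp).one_lt.le (sA S A0 E2 p) V τ m
    (srp_sA_meas S A0 E2 hA0 hE2 p hp) hV hτ hm hc).2.2.1 (H k p k) (sr_H_mono k p hk1) m hc

end Pool.Agent.H79.EW
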