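import Pool.Agent.H79.EST.SRPn

/-!
# Row SEE: the numbers (helper79)
-/

set_option autoImplicit false

namespace Pool.Agent.H79.EW

open Pool.Agent.H79.EST

theorem numW (a ds d ε x H C C' G P' Cr Bc g ρ₀ ρ τ : ℝ) (k n : ℕ) (hk : 3 ≤ k)
    (hC : 1 ≤ C) (hC' : 1 ≤ C') (hG : 1 ≤ G) (hH : 0 ≤ H) (hn : 1 ≤ n) (hd : 0 < d)
    (hCr : Cr = C + C' + Real.log (4 * C * C' * G))
    (hBc : Bc = 8 + 2 * Cr + Real.log k + C' + Real.log C')
    (hg : g = (n : ℝ) * (H + 1)) (hρ₀ : ρ₀ = Real.exp (-C' * H) / (C' * G))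
    (hτ : τ = Real.exp (-C * H) / C) (hρ : ρ = τ / 2 * (ρ₀ / 2))
    (b1 : Bc * g ≤ a * x / 40) (b2 : Bc * g ≤ a * ds * x / 2) (b3 : Bc * g ≤ a * d * x / 2)
    (b4 : Bc * g ≤ ε * x) (hP' : Real.exp (a * x / 2) ≤ P') :
    (0 < ρ₀ ∧ ρ₀ ≤ 1) ∧ (0 < τ ∧ τ ≤ 1) ∧ (0 < ρ ∧ ρ ≤ 1) ∧
    (∃ K : ℕ, 2 * (n : ℝ) ^ 2 ≤ ρ ^ n * K ∧ (K : ℝ) ≤ Real.exp (a * x / 4) ∧
      K * Real.exp (-(a * ds * x / 2)) ≤ ρ₀ / 2) ∧
    (∀ p : ℝ, P' ≤ p → k * P' ^ (1 / 50 : ℝ) ≤ τ / 2 * p) ∧
    (24 * k * (n : ℝ) ^ 2 * P' ^ (1 / 50 : ℝ) ≤ ρ ^ (2 * n) * P' ^ (1 / 2 : ℝ)) ∧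
    2 * Real.exp (-ε * x) ≤ ρ ^ (2 * n) / 16 ∧
    (C' * (2 * Real.exp (-(a * x / 8))) ≤ Real.exp (-H)) ∧
    (∀ p : ℝ, Real.exp (a * x / 2) ≤ p → C' * p ^ (-d) ≤ Real.exp (-C' * H)) := by
  have hC'0 : 0 < C' := by linarith
  have hC0 : 0 < C := by linarith
  have hG0 : 0 < G := by linarith
  have hk1 : (1 : ℝ) ≤ k := by
    have : (3 : ℝ) ≤ k := by exact_mod_cast hk
    linarith
  have hk0 : (0 : ℝ) < k := by linarith
  have hCG : 1 ≤ C' * G := one_le_mul_of_one_le_of_one_le hC' hG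
  have hCG0 : 0 < C' * G := by linarith
  have h4 : 1 ≤ 4 * C * C' * G := by
    have h1 : 1 ≤ C * (C' * G) := one_le_mul_of_one_le_of_one_le hC hCG
    nlinarith
  have h40 : 0 < 4 * C * C' * G := by linarith
  have hl1 : 0 ≤ Real.log (4 * C * C' * G) := Real.log_nonneg h4
  have hl2 : 0 ≤ Real.log k := Real.log_nonneg hk1
  have hl5 : 0 ≤ Real.log C' := Real.log_nonneg hC'
  have hCr0 : 0 ≤ Cr := by rw [hCr]; linarith
  have hn1 : (1 : ℝ) ≤ n := by exact_mod_cast hn
  have hn0 : (0 : ℝ) < n := by linarith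
  have hH1 : 1 ≤ H + 1 := by linarith
  have hng : (n : ℝ) ≤ g := by
    rw [hg]
    exact le_mul_of_one_le_right hn0.le hH1
  have hg1 : 1 ≤ g := hn1.trans hng
  have hHg : H + 1 ≤ g := by
    rw [hg]
    exact le_mul_of_one_le_left (by linarith) hn1
  have hBc0 : 0 ≤ Bc := by rw [hBc]; linarith
  have hax : 0 ≤ a * x := by
    have : 0 ≤ Bc * g := mul_nonneg hBc0 (by linarith)
    linarith
  -- the densities
  have hρ₀0 : 0 < ρ₀ := by rw [hρ₀]; positivity
  have hρ₀1 : ρ₀ ≤ 1 := by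
    rw [hρ₀, div_le_one hCG0]
    refine le_trans (Real.exp_le_one_iff.mpr ?_) hCG
    nlinarith
  have hτ0 : 0 < τ := by rw [hτ]; positivity
  have hτ1 : τ ≤ 1 := by
    rw [hτ, div_le_one hC0]
    refine le_trans (Real.exp_le_one_iff.mpr ?_) hC
    nlinarith
  have hρ0 : 0 < ρ := by rw [hρ]; positivity
  have hρτ : ρ ≤ τ / 2 := by
    rw [hρ]
    exact mul_le_of_le_one_right (by linarith) (by linarith)
  have hρρ : ρ ≤ ρ₀ / 2 := by
    rw [hρ]
    exact mul_le_of_le_one_left (by linarith) (by linarith)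
  have hρ1 : ρ ≤ 1 := by linarith
  have hρlo : Real.exp (-(Cr * (H + 1))) ≤ ρ := by
    have e1 : ρ = Real.exp (-((C + C') * H)) / (4 * C * C' * G) := by
      rw [hρ, hτ, hρ₀]
      rw [show -((C + C') * H) = -C * H + -C' * H by ring, Real.exp_add]
      field_simp
      norm_num
    rw [e1, le_div_iff₀ h40]
    calc Real.exp (-(Cr * (H + 1))) * (4 * C * C' * G) =
          Real.exp (-(Cr * (H + 1))) * Real.exp (Real.log (4 * C * C' * G)) := by
          rw [Real.exp_log h40]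
      _ = Real.exp (-(Cr * (H + 1)) + Real.log (4 * C * C' * G)) := by rw [Real.exp_add]
      _ ≤ Real.exp (-((C + C') * H)) := by
          apply Real.exp_le_exp.mpr
          rw [hCr]
          nlinarith [mul_nonneg hl1 hH]
  have hρn : Real.exp (-(Cr * g)) ≤ ρ ^ n := by
    calc Real.exp (-(Cr * g)) = Real.exp (-(Cr * (H + 1))) ^ n := by
          rw [← Real.exp_nat_mul, hg]; congr 1; ring
      _ ≤ ρ ^ n := pow_le_pow_left₀ (Real.exp_pos _).le hρlo n
  have hρ2n : Real.exp (-(2 * Cr * g)) ≤ ρ ^ (2 * n) := by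
    calc Real.exp (-(2 * Cr * g)) = Real.exp (-(Cr * g)) ^ 2 := by
          rw [← Real.exp_nat_mul]; congr 1; push_cast; ring
      _ ≤ (ρ ^ n) ^ 2 := pow_le_pow_left₀ (Real.exp_pos _).le hρn 2
      _ = ρ ^ (2 * n) := by rw [← pow_mul, mul_comm]
  have hρg : Real.exp (-(Cr * g)) ≤ ρ := by
    refine le_trans (Real.exp_le_exp.mpr ?_) hρlo
    have := mul_le_mul_of_nonneg_left hHg hCr0
    linarith
  have hρn0 : 0 < ρ ^ n := by positivity
  have hρn1 : ρ ^ n ≤ 1 := pow_le_one₀ hρ0.le hρ1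
  have h24 : (24 : ℝ) ≤ Real.exp (4 * g) := by
    refine le_trans le_exp_four (Real.exp_le_exp.mpr ?_)
    linarith
  have hn2e : (n : ℝ) ^ 2 ≤ Real.exp (2 * g) := by
    have h1 : (n : ℝ) ≤ Real.exp g := hng.trans (le_exp_self g)
    calc (n : ℝ) ^ 2 ≤ Real.exp g ^ 2 := pow_le_pow_left₀ hn0.le h1 2
      _ = Real.exp (2 * g) := by rw [← Real.exp_nat_mul]; congr 1
  have hC'e := le_exp_log C' g hC' hg1
  have hke := le_exp_log (k : ℝ) g hk1 hg1
  refine ⟨⟨hρ₀0, hρ₀1⟩, ⟨hτ0, hτ1⟩, ⟨hρ0, hρ1⟩, ?_, ?_, ?_, ?_, ?_, ?_⟩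
  · -- the number of the primes of the pool
    have hKe : (⌈2 * (n : ℝ) ^ 2 / ρ ^ n⌉₊ : ℝ) ≤ Real.exp ((6 + Cr) * g) := by
      have h1 : (1 : ℝ) ≤ (n : ℝ) ^ 2 / ρ ^ n := by
        rw [le_div_iff₀ hρn0, one_mul]
        have : (1 : ℝ) ≤ (n : ℝ) ^ 2 := one_le_pow₀ hn1
        linarith
      have h2 : (⌈2 * (n : ℝ) ^ 2 / ρ ^ n⌉₊ : ℝ) ≤ 3 * ((n : ℝ) ^ 2 / ρ ^ n) := by
        have h3 := (Nat.ceil_lt_add_one (show (0 : ℝ) ≤ 2 * (n : ℝ) ^ 2 / ρ ^ n by positivity)).le
        have e1 : 2 * (n : ℝ) ^ 2 / ρ ^ n = 2 * ((n : ℝ) ^ 2 / ρ ^ n) := by ring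
        linarith [h3, h1, e1]
      refine h2.trans ?_
      have h3 : (n : ℝ) ^ 2 / ρ ^ n ≤ Real.exp (2 * g) * Real.exp (Cr * g) := by
        rw [div_le_iff₀ hρn0, mul_assoc]
        have h5 : 1 ≤ Real.exp (Cr * g) * ρ ^ n := by
          calc (1 : ℝ) = Real.exp (Cr * g) * Real.exp (-(Cr * g)) := by
                rw [← Real.exp_add, add_neg_cancel, Real.exp_zero]
            _ ≤ _ := mul_le_mul_of_nonneg_left hρn (Real.exp_pos _).le
        calc (n : ℝ) ^ 2 ≤ Real.exp (2 * g) := hn2e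
          _ ≤ Real.exp (2 * g) * (Real.exp (Cr * g) * ρ ^ n) :=
            le_mul_of_one_le_right (Real.exp_pos _).le h5
      calc 3 * ((n : ℝ) ^ 2 / ρ ^ n) ≤ Real.exp (4 * g) * (Real.exp (2 * g) *
            Real.exp (Cr * g)) := mul_le_mul (by linarith) h3 (by positivity) (Real.exp_pos _).le
        _ = Real.exp ((6 + Cr) * g) := by
            rw [← Real.exp_add, ← Real.exp_add]; congr 1; ring
    refine ⟨⌈2 * (n : ℝ) ^ 2 / ρ ^ n⌉₊, ?_, ?_, ?_⟩
    · have h1 := Nat.le_ceil (2 * (n : ℝ) ^ 2 / ρ ^ n)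
      rw [div_le_iff₀ hρn0] at h1
      linarith
    · refine hKe.trans (Real.exp_le_exp.mpr ?_)
      have : (6 + Cr) * g ≤ Bc * g := by
        apply mul_le_mul_of_nonneg_right _ (by linarith)
        rw [hBc]; linarith
      linarith
    · calc (⌈2 * (n : ℝ) ^ 2 / ρ ^ n⌉₊ : ℝ) * Real.exp (-(a * ds * x / 2)) ≤
            Real.exp ((6 + Cr) * g) * Real.exp (-(a * ds * x / 2)) :=
            mul_le_mul_of_nonneg_right hKe (Real.exp_pos _).le
        _ = Real.exp ((6 + Cr) * g - a * ds * x / 2) := by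
            rw [← Real.exp_add]; congr 1
        _ ≤ Real.exp (-(Cr * g)) := by
            apply Real.exp_le_exp.mpr
            have : (6 + Cr + Cr) * g ≤ Bc * g := by
              apply mul_le_mul_of_nonneg_right _ (by linarith)
              rw [hBc]; linarith
            linarith
        _ ≤ ρ := hρg
        _ ≤ ρ₀ / 2 := hρρ
  · intro p hp
    have hP1 : 1 ≤ P' := le_trans (Real.one_le_exp (by linarith)) hP'
    have hP0 : 0 < P' := by linarith
    have h1 : P' = P' ^ (1 / 50 : ℝ) * P' ^ (49 / 50 : ℝ) := by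
      rw [← Real.rpow_add hP0]
      norm_num
    have h2 : Real.exp (a * x / 40) ≤ P' ^ (49 / 50 : ℝ) := by
      calc Real.exp (a * x / 40) ≤ Real.exp (a * x / 2) ^ (49 / 50 : ℝ) := by
            rw [← Real.exp_mul]
            apply Real.exp_le_exp.mpr
            linarith
        _ ≤ P' ^ (49 / 50 : ℝ) := Real.rpow_le_rpow (Real.exp_pos _).le hP' (by norm_num)
    have h3 : (k : ℝ) ≤ τ / 2 * P' ^ (49 / 50 : ℝ) := by
      calc (k : ℝ) ≤ Real.exp (Real.log k * g) := hke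
        _ ≤ Real.exp (-(Cr * g)) * Real.exp (a * x / 40) := by
            rw [← Real.exp_add]
            apply Real.exp_le_exp.mpr
            have : (Real.log k + Cr) * g ≤ Bc * g := by
              apply mul_le_mul_of_nonneg_right _ (by linarith)
              rw [hBc]; linarith
            linarith
        _ ≤ τ / 2 * P' ^ (49 / 50 : ℝ) :=
            mul_le_mul (hρg.trans hρτ) h2 (Real.exp_pos _).le (by positivity)
    calc (k : ℝ) * P' ^ (1 / 50 : ℝ) ≤ (τ / 2 * P' ^ (49 / 50 : ℝ)) * P' ^ (1 / 50 : ℝ) :=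
          mul_le_mul_of_nonneg_right h3 (Real.rpow_nonneg hP0.le _)
      _ = τ / 2 * P' := by
          conv_rhs => rw [h1]
          ring
      _ ≤ τ / 2 * p := mul_le_mul_of_nonneg_left hp (by positivity)
  · have hP1 : 1 ≤ P' := le_trans (Real.one_le_exp (by linarith)) hP'
    have hP0 : 0 < P' := by linarith
    have h1 : P' ^ (1 / 2 : ℝ) = P' ^ (1 / 50 : ℝ) * P' ^ (12 / 25 : ℝ) := by
      rw [← Real.rpow_add hP0]
      norm_num
    have h2 : Real.exp (a * x / 5) ≤ P' ^ (12 / 25 : ℝ) := by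
      calc Real.exp (a * x / 5) ≤ Real.exp (a * x / 2) ^ (12 / 25 : ℝ) := by
            rw [← Real.exp_mul]
            apply Real.exp_le_exp.mpr
            linarith
        _ ≤ P' ^ (12 / 25 : ℝ) := Real.rpow_le_rpow (Real.exp_pos _).le hP' (by norm_num)
    have h3 : 24 * k * (n : ℝ) ^ 2 ≤ ρ ^ (2 * n) * P' ^ (12 / 25 : ℝ) := by
      calc 24 * k * (n : ℝ) ^ 2 ≤ Real.exp (4 * g) * Real.exp (Real.log k * g) *
            Real.exp (2 * g) := by
            apply mul_le_mul _ hn2e (by positivity) (by positivity)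
            exact mul_le_mul h24 hke hk0.le (Real.exp_pos _).le
        _ = Real.exp ((6 + Real.log k) * g) := by
            rw [← Real.exp_add, ← Real.exp_add]; congr 1; ring
        _ ≤ Real.exp (-(2 * Cr * g)) * Real.exp (a * x / 5) := by
            rw [← Real.exp_add]
            apply Real.exp_le_exp.mpr
            have : (6 + Real.log k + 2 * Cr) * g ≤ Bc * g := by
              apply mul_le_mul_of_nonneg_right _ (by linarith)
              rw [hBc]; linarith
            linarith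
        _ ≤ ρ ^ (2 * n) * P' ^ (12 / 25 : ℝ) :=
            mul_le_mul hρ2n h2 (Real.exp_pos _).le (by positivity)
    calc 24 * k * (n : ℝ) ^ 2 * P' ^ (1 / 50 : ℝ) ≤
          (ρ ^ (2 * n) * P' ^ (12 / 25 : ℝ)) * P' ^ (1 / 50 : ℝ) :=
          mul_le_mul_of_nonneg_right h3 (Real.rpow_nonneg hP0.le _)
      _ = ρ ^ (2 * n) * P' ^ (1 / 2 : ℝ) := by
          rw [h1]
          ring
  · rw [le_div_iff₀ (by norm_num)]
    have h32 : (32 : ℝ) ≤ Real.exp (8 * g) := by
      calc (32 : ℝ) ≤ 24 * 24 := by norm_num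
        _ ≤ Real.exp (4 * g) * Real.exp (4 * g) :=
            mul_le_mul h24 h24 (by norm_num) (Real.exp_pos _).le
        _ = Real.exp (8 * g) := by rw [← Real.exp_add]; congr 1; ring
    calc 2 * Real.exp (-ε * x) * 16 = 32 * Real.exp (-ε * x) := by ring
      _ ≤ Real.exp (8 * g) * Real.exp (-ε * x) :=
          mul_le_mul_of_nonneg_right h32 (Real.exp_pos _).le
      _ = Real.exp (8 * g + -ε * x) := by rw [← Real.exp_add]
      _ ≤ Real.exp (-(2 * Cr * g)) := by
          apply Real.exp_le_exp.mpr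
          have : (8 + 2 * Cr) * g ≤ Bc * g := by
            apply mul_le_mul_of_nonneg_right _ (by linarith)
            rw [hBc]; linarith
          linarith
      _ ≤ ρ ^ (2 * n) := hρ2n
  · calc C' * (2 * Real.exp (-(a * x / 8))) ≤
          Real.exp (Real.log C' * g) * (Real.exp (4 * g) * Real.exp (-(a * x / 8))) := by
          apply mul_le_mul hC'e _ (by positivity) (Real.exp_pos _).le
          apply mul_le_mul_of_nonneg_right _ (Real.exp_pos _).le
          linarith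
      _ = Real.exp ((Real.log C' + 4) * g - a * x / 8) := by
          rw [← Real.exp_add, ← Real.exp_add]; congr 1; ring
      _ ≤ Real.exp (-H) := by
          apply Real.exp_le_exp.mpr
          have : (Real.log C' + 4 + 1) * g ≤ Bc * g := by
            apply mul_le_mul_of_nonneg_right _ (by linarith)
            rw [hBc]; linarith
          nlinarith
  · intro p hp
    have h1 : p ^ (-d) ≤ Real.exp (-(a * d * x / 2)) := by
      calc p ^ (-d) ≤ (Real.exp (a * x / 2)) ^ (-d) :=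
            Real.rpow_le_rpow_of_nonpos (Real.exp_pos _) hp (by linarith)
        _ = Real.exp (-(a * d * x / 2)) := by rw [← Real.exp_mul]; congr 1; ring
    calc C' * p ^ (-d) ≤ Real.exp (Real.log C' * g) * Real.exp (-(a * d * x / 2)) :=
          mul_le_mul hC'e h1 (Real.rpow_nonneg (le_trans (Real.exp_pos _).le hp) _)
            (Real.exp_pos _).le
      _ = Real.exp (Real.log C' * g - a * d * x / 2) := by
          rw [← Real.exp_add]; congr 1
      _ ≤ Real.exp (-C' * H) := by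
          apply Real.exp_le_exp.mpr
          have h2 : (Real.log C' + C') * g ≤ Bc * g := by
            apply mul_le_mul_of_nonneg_right _ (by linarith)
            rw [hBc]; linarith
          have h3 : C' * H ≤ C' * g := mul_le_mul_of_nonneg_left (by linarith) hC'0.le
          linarith

end Pool.Agent.H79.EW
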