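import Pool.Agent.H79.EST.SRP
import Pool.Agent.H79.EW.SEEn
import Pool.Agent.H79.EW.SEEd
import Pool.Agent.H79.HF.Defs

/-!
# Row SEE: from many alive points to many seen points (helper79)
-/

set_option autoImplicit false

open Finset MeasureTheory

namespace Pool.Agent.H79.EW

open Pool.Agent.H24.CL Pool.Agent.H24.LV Pool.Agent.H26.ES Pool.Agent.H22.LVP Pool.Agent.H79.EST
open Pool.Agent.H26.EW (T_EDG T_GLO T_SEN T_WEH T_WSM MT CT Sl)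

theorem see_main (k : ℕ) (hk : 3 ≤ k) (hGM : L_GM) (hGMP : T_GMP) (hSHP : T_SHP) (hED : T_EDG)
    (hGL : T_GLO) (hSE : T_SEN) (hSM : T_WSM)
    (CW a d ds ε C₃ CR M₀ C C' Cr Bc Dc Ds G g : ℝ) (q₀ q₁ : ℕ)
    (hCW : 1 ≤ CW) (hC : 1 ≤ C) (hC' : 1 ≤ C') (hCR : 1 ≤ CR)
    (hW : ∀ (N : ℕ) (t : ℝ), 1 ≤ N → 0 < t →
      (N : ℝ) ^ (KN k) * t ^ (2 * KN k) * volume.real {a : X k | t ≤ ‖u N a‖} ≤ CW)
    (hFP : ∀ (p q N : ℕ) (t : ℝ), q₁ ≤ p → q₁ ≤ q → p.Prime → q.Prime → p ≠ q → p ≤ 2 * q →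
      q ≤ 2 * p → 1 ≤ N → 0 < t → (q : ℝ) ^ Ds ≤ N * t ^ 2 → N * t ^ 2 ≤ (q : ℝ) ^ (4 / a) →
      ∃ E : Set (X k), MeasurableSet E ∧
      (N : ℝ) ^ (KN k) * t ^ (2 * KN k) * volume.real E ≤ (q : ℝ) ^ (-ds) ∧
      Cnt (H k p k ⊔ H k q k) ({a : X k | t ≤ ‖u N a‖} \ E) ((q : ℝ) ^ (1 / 100 : ℝ)))
    (hPR : ∀ (p N₀ N₁ : ℕ) (M H w : ℝ), q₀ ≤ p → p.Prime → 1 ≤ N₀ → 1 ≤ M → 0 ≤ H → 0 ≤ w →
      p * N₀ ≤ N₁ → (N₁ : ℝ) - p * N₀ ≤ w * N₁ → C' * w ≤ Real.exp (-H) →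
      C' * (p : ℝ) ^ (-d) ≤ Real.exp (-C' * H) →
      (p : ℝ) ^ Dc ≤ N₀ / M → (N₀ : ℝ) / M ≤ (p : ℝ) ^ (4 / a) →
      M ^ (KN k) * Real.exp (-H) ≤ (N₁ : ℝ) ^ (KN k) *
        volume.real {a : X k | M ^ (-(1 / 2 : ℝ)) ≤ ‖u N₁ a‖} →
      ∃ (A : Set (X k)) (τ : ℝ), MeasurableSet A ∧
        (∀ a ∈ A, M ^ (-(1 / 2 : ℝ)) / 2 ≤ ‖u (p * N₀) a‖) ∧
        Cnt (Pool.Agent.H24.CL.H k p k) A ((p : ℝ) ^ (1 / 100 : ℝ)) ∧
        Cnt (Pool.Agent.H24.CL.H k p 1) A (C * Real.exp (C * H)) ∧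
        τ = Real.exp (-C * H) / C ∧
        Real.exp (-C' * H) / C' * (M / N₀) ^ (KN k) ≤ (p : ℝ) ^ (KN k - k) * ((1 / (p : ℝ)) *
          ∑ y ∈ range p, volume.real {a : X k |
            a ∈ Uns k p (GdL k p A {v : X k | M ^ (-(1 / 2 : ℝ)) / 8 ≤ ‖u N₀ v‖} τ) y ∧
            phi p y a ∈ {v : X k | M ^ (-(1 / 2 : ℝ)) / 8 ≤ ‖u N₀ v‖}}))
    (hWE : ∀ (M κ : ℝ) (N : ℕ) (S : Finset ℕ) (b : X k), M₀ ≤ M → 1 / M ≤ κ → κ ≤ 1 →
      4096 * M / κ ≤ (N : ℝ) → (N : ℝ) ≤ M ^ (3 : ℝ) → (∀ p ∈ S, p.Prime) → M ^ C₃ ≤ (DS S : ℝ) →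
      κ ≤ hd (DS S) {v : X k | M ^ (-(1 / 2 : ℝ)) / 8 ≤ ‖u N v‖} b →
      ∃ S₁ ⊆ S, ∀ x < DS S,
        κ / 2 ≤ hd (DS S₁) {v : X k | M ^ (-(1 / 2 : ℝ)) / 8 ≤ ‖u N v‖}
          (phi (DS S / DS S₁) (x % (DS S / DS S₁)) b) →
        phi (DS S) x b ∈ WS k N (M ^ CR) (256 * M / κ))
    (ha : 0 < a) (ha16 : a ≤ 1 / 16) (hDc0 : 0 ≤ Dc) (hDc : 8 * (a * Dc) ≤ 1)
    (hDs : 8 * (a * max Ds 0) ≤ 1) (hd : 0 < d) (hds : 0 < ds) (hε8 : ε ≤ 1 / 8)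
    (hG : G = CW * 64 ^ KN k) (hCr : Cr = C + C' + Real.log (4 * C * C' * G))
    (hBc : Bc = 8 + 2 * Cr + Real.log k + C' + Real.log C')
    (M x H' : ℝ) (N₁ n r : ℕ) (hM : 1 ≤ M) (hM₀M : M₀ ≤ M) (hx : 16 ≤ x)
    (hxL : x ≤ Real.log M) (hH : 0 ≤ H') (hn : 1 ≤ n) (hnr : n = 2 ^ r)
    (hnL : C₃ * Real.log M ≤ n * (a * x / 2)) (hg : g = (n : ℝ) * (H' + 1))
    (b1 : Bc * g ≤ a * x / 40) (b2 : Bc * g ≤ a * ds * x / 2) (b3 : Bc * g ≤ a * d * x / 2)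
    (b4 : Bc * g ≤ ε * x) (P' : ℝ) (Q : Finset ℕ) (hP'1 : Real.exp (a * x / 2) ≤ P')
    (hP'2 : P' ≤ Real.exp (a * x))
    (hQ : ∀ p ∈ Q, p.Prime ∧ P' ≤ (p : ℝ) ∧ (p : ℝ) ≤ P' * (1 + Real.exp (-(a * x / 8))))
    (hQc : Real.exp (a * x / 4) ≤ (Q.card : ℝ))
    (m2 : (q₀ : ℝ) + q₁ + k + 2 ≤ Real.exp (a * x / 2)) (m5 : 4 ≤ Real.exp (a * x / 8))
    (hN1 : M * Real.exp x ≤ (N₁ : ℝ)) (hN2 : (N₁ : ℝ) ≤ M * Real.exp (2 * x))
    (hbig : M ^ (KN k) * Real.exp (-H') ≤ (N₁ : ℝ) ^ (KN k) *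
      volume.real {a : X k | M ^ (-(1 / 2 : ℝ)) ≤ ‖u N₁ a‖}) :
    ∃ N₀ : ℕ, M * Real.exp (x / 2) ≤ N₀ ∧ N₀ ≤ N₁ ∧
      M ^ (KN k) * Real.exp (-ε * x) ≤ (N₀ : ℝ) ^ (KN k) *
        volume.real (WS k N₀ ((N₀ : ℝ) ^ CR) (128 * M / Real.exp (-ε * x))) := by
  have hM0 : 0 < M := lt_of_lt_of_le one_pos hM
  have ht : 0 < M ^ (-(1 / 2 : ℝ)) := Real.rpow_pos_of_pos hM0 _
  have hax : 0 < a * x := mul_pos ha (by linarith only [hx])
  have hG1 : 1 ≤ G := by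
    rw [hG]
    exact one_le_mul_of_one_le_of_one_le hCW (one_le_pow₀ (by norm_num))
  have hP1 : 1 ≤ P' := le_trans (Real.one_le_exp (by linarith only [hax])) hP'1
  have hP0 : 0 < P' := lt_of_lt_of_le one_pos hP1
  have hP2 : (q₀ : ℝ) + q₁ + k + 2 ≤ P' := le_trans m2 hP'1
  have hq0R : (0 : ℝ) ≤ q₀ := Nat.cast_nonneg _
  have hq1R : (0 : ℝ) ≤ q₁ := Nat.cast_nonneg _
  have hkR : (0 : ℝ) ≤ k := Nat.cast_nonneg _
  have hP'two : 2 ≤ P' := by linarith only [hP2, hq0R, hq1R, hkR]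
  have h2ax : 2 ≤ Real.exp (a * x) := hP'two.trans hP'2
  obtain ⟨ρ₀, hρ₀d⟩ : ∃ ρ₀ : ℝ, ρ₀ = Real.exp (-C' * H') / (C' * G) := ⟨_, rfl⟩
  obtain ⟨τ, hτd⟩ : ∃ τ : ℝ, τ = Real.exp (-C * H') / C := ⟨_, rfl⟩
  obtain ⟨ρ, hρd⟩ : ∃ ρ : ℝ, ρ = τ / 2 * (ρ₀ / 2) := ⟨_, rfl⟩
  obtain ⟨⟨hρ₀0, hρ₀1⟩, ⟨hτ0, hτ1⟩, ⟨hρ0, hρ1⟩, ⟨K, hK1, hK2, hK3⟩, n1, n2, n3, n4, n5⟩ :=
    numW a ds d ε x H' C C' G P' Cr Bc g ρ₀ ρ τ k n hk hC hC' hG1 hH hn hd hCr hBc hg hρ₀d hτd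
      hρd b1 b2 b3 b4 hP'1
  obtain ⟨w, hw⟩ : ∃ w : ℝ, w = Real.exp (-(a * x / 8)) := ⟨_, rfl⟩
  rw [← hw] at hQ n4
  have hw0 : 0 < w := by rw [hw]; exact Real.exp_pos _
  have hw4 : w ≤ 1 / 4 := by
    rw [hw, Real.exp_neg, one_div (4 : ℝ)]
    exact inv_anti₀ (by norm_num) m5
  -- the length
  obtain ⟨N₀, hN₀d⟩ : ∃ N₀ : ℕ, N₀ = ⌊(N₁ : ℝ) / (P' * (1 + w))⌋₊ := ⟨_, rfl⟩
  have hPN : P' ≤ w * N₁ := by
    calc P' ≤ Real.exp (a * x) := hP'2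
      _ ≤ Real.exp (-(a * x / 8) + x) := by
          apply Real.exp_le_exp.mpr
          have : a * x ≤ 1 / 16 * x := mul_le_mul_of_nonneg_right ha16 (by linarith only [hx])
          linarith only [this, hx]
      _ = w * Real.exp x := by rw [Real.exp_add, hw]
      _ ≤ w * (M * Real.exp x) := by
          apply mul_le_mul_of_nonneg_left _ hw0.le
          exact le_mul_of_one_le_left (Real.exp_pos _).le hM
      _ ≤ w * N₁ := mul_le_mul_of_nonneg_left hN1 hw0.le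
  obtain ⟨hN01, hN0lo, hlen⟩ := sr_len N₁ P' w hP1 hw0.le hPN hw4 N₀ hN₀d
  have hN0M := srp_N0 M a x P' N₁ N₀ hM hx ha16 hP1 hP'2 hN1 hN0lo
  have hN0one : 1 ≤ N₀ := by
    have h1 : (1 : ℝ) ≤ N₀ := by
      refine le_trans ?_ hN0M
      exact one_le_mul_of_one_le_of_one_le hM (Real.one_le_exp (by linarith only [hx]))
    exact_mod_cast h1
  have hN0R : (0 : ℝ) < N₀ := by exact_mod_cast hN0one
  -- facts about the primes
  have hp2P : ∀ p ∈ Q, (p : ℝ) ≤ 2 * P' := by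
    intro p hp
    refine le_trans (hQ p hp).2.2 ?_
    have : P' * (1 + w) ≤ P' * 2 := mul_le_mul_of_nonneg_left (by linarith only [hw4]) hP0.le
    linarith only [this]
  have hpq0 : ∀ p ∈ Q, q₀ ≤ p := by
    intro p hp
    have h1 : (q₀ : ℝ) ≤ p := le_trans (by linarith only [hP2, hq1R, hkR]) (hQ p hp).2.1
    exact_mod_cast h1
  have hpq1 : ∀ p ∈ Q, q₁ ≤ p := by
    intro p hp
    have h1 : (q₁ : ℝ) ≤ p := le_trans (by linarith only [hP2, hq0R, hkR]) (hQ p hp).2.1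
    exact_mod_cast h1
  have hpk : ∀ p ∈ Q, k < p := by
    intro p hp
    have h1 : (k : ℝ) < p := lt_of_lt_of_le (by linarith only [hP2, hq0R, hq1R]) (hQ p hp).2.1
    exact_mod_cast h1
  have hplo : ∀ p ∈ Q, Real.exp (a * x / 2) ≤ (p : ℝ) := fun p hp =>
    le_trans hP'1 (hQ p hp).2.1
  have hphi : ∀ p ∈ Q, (p : ℝ) ≤ 2 * Real.exp (a * x) := fun p hp =>
    le_trans (hp2P p hp) (by linarith only [hP'2])
  have hpN1 : ∀ p ∈ Q, 1 ≤ p * N₀ := fun p hp =>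
    Nat.one_le_iff_ne_zero.mpr (Nat.mul_ne_zero (hQ p hp).1.pos.ne' (by omega))
  have ht2 : 0 < M ^ (-(1 / 2 : ℝ)) / 2 := half_pos ht
  -- one prime
  obtain ⟨V, hVd⟩ : ∃ V : Set (X k), V = {v : X k | M ^ (-(1 / 2 : ℝ)) / 8 ≤ ‖u N₀ v‖} := ⟨_, rfl⟩
  have hEx : ∀ p ∈ Q, ∃ A : Set (X k), MeasurableSet A ∧
      (∀ a ∈ A, M ^ (-(1 / 2 : ℝ)) / 2 ≤ ‖u (p * N₀) a‖) ∧
      Cnt (Pool.Agent.H24.CL.H k p k) A ((p : ℝ) ^ (1 / 100 : ℝ)) ∧
      Cnt (Pool.Agent.H24.CL.H k p 1) A (C * Real.exp (C * H')) ∧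
      Real.exp (-C' * H') / C' * (M / N₀) ^ (KN k) ≤ (p : ℝ) ^ (KN k - k) * ((1 / (p : ℝ)) *
        ∑ y ∈ range p, volume.real {a : X k | a ∈ Uns k p (GdL k p A V τ) y ∧
          phi p y a ∈ V}) := by
    intro p hp
    obtain ⟨l1, l2, l3⟩ := hlen p (hQ p hp).2.1 (hQ p hp).2.2
    obtain ⟨-, g1, g2⟩ := srp_level M x a Dc N₁ N₀ p p hM hx ha hDc0 hDc
      (hQ p hp).1.one_lt.le h2ax (hplo p hp) (hphi p hp) hN0M l1 hN2
    push_cast at l2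
    obtain ⟨A, τ', c1, c2, c3, c4, c5, c6⟩ := hPR p N₀ N₁ M H' (2 * w) (hpq0 p hp) (hQ p hp).1
      hN0one hM hH (by linarith only [hw0]) l1 l2 n4 (n5 p (hplo p hp)) g1 g2 hbig
    have hτ' : τ' = τ := c5.trans hτd.symm
    rw [hτ', ← hVd] at c6
    exact ⟨A, c1, c2, c3, c4, c6⟩
  choose! A0 hA0m hA0u hA0c hA01 hA0s using hEx
  -- the exceptional sets of the pairs
  have hEx2 : ∀ p ∈ Q, ∀ q ∈ Q, p ≠ q → ∃ E : Set (X k), MeasurableSet E ∧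
      (((p * N₀ : ℕ) : ℝ)) ^ (KN k) * (M ^ (-(1 / 2 : ℝ)) / 2) ^ (2 * KN k) * volume.real E ≤
        (q : ℝ) ^ (-ds) ∧
      Cnt (Pool.Agent.H24.CL.H k p k ⊔ Pool.Agent.H24.CL.H k q k)
        ({a : X k | M ^ (-(1 / 2 : ℝ)) / 2 ≤ ‖u (p * N₀) a‖} \ E)
        ((q : ℝ) ^ (1 / 100 : ℝ)) := by
    intro p hp q hq hpq
    obtain ⟨⟨g1, g2⟩, -, -⟩ := srp_level M x a (max Ds 0) N₁ N₀ p q hM hx ha (le_max_right _ _)
      hDs (hQ p hp).1.one_lt.le h2ax (hplo q hq) (hphi q hq) hN0M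
      (hlen p (hQ p hp).2.1 (hQ p hp).2.2).1 hN2
    have g3 : (q : ℝ) ^ Ds ≤ (q : ℝ) ^ (max Ds 0) := by
      apply Real.rpow_le_rpow_of_exponent_le _ (le_max_left _ _)
      exact_mod_cast (hQ q hq).1.one_lt.le
    have g4 : p ≤ 2 * q := by
      have : (p : ℝ) ≤ 2 * q := le_trans (hp2P p hp) (by linarith only [(hQ q hq).2.1])
      exact_mod_cast this
    have g5 : q ≤ 2 * p := by
      have : (q : ℝ) ≤ 2 * p := le_trans (hp2P q hq) (by linarith only [(hQ p hp).2.1])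
      exact_mod_cast this
    exact hFP p q (p * N₀) (M ^ (-(1 / 2 : ℝ)) / 2) (hpq1 p hp) (hpq1 q hq) (hQ p hp).1 (hQ q hq).1
      hpq g4 g5 (hpN1 p hp) ht2 (le_trans g3 g1) g2
  choose! E2 hE2m hE2v hE2c using hEx2
  -- names
  obtain ⟨ν, hνd⟩ : ∃ ν : ℝ, ν = C * Real.exp (C * H') := ⟨_, rfl⟩
  obtain ⟨m, hmd⟩ : ∃ m : ℝ, m = P' ^ (1 / 50 : ℝ) := ⟨_, rfl⟩
  obtain ⟨Ω, hΩd⟩ : ∃ Ω : ℝ, Ω = CW * 64 ^ KN k * M ^ KN k / (N₀ : ℝ) ^ KN k := ⟨_, rfl⟩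
  have hν1 : 1 ≤ ν := by
    rw [hνd]
    exact one_le_mul_of_one_le_of_one_le hC
      (Real.one_le_exp (mul_nonneg (by linarith only [hC]) hH))
  have hm1 : 1 ≤ m := by rw [hmd]; exact Real.one_le_rpow hP1 (by norm_num)
  have hN0K : 0 < (N₀ : ℝ) ^ KN k := pow_pos hN0R _
  have hCW0 : 0 < CW := lt_of_lt_of_le one_pos hCW
  have hΩ0 : 0 < Ω := by rw [hΩd]; positivity
  have hVm : MeasurableSet V := by rw [hVd]; exact sr_umeas _ _ _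
  rw [← hνd] at hA01
  rw [← hmd] at n1 n2
  have hpm : ∀ p ∈ Q, (p : ℝ) ^ (1 / 100 : ℝ) ≤ m := fun p hp =>
    sr_pc P' (1 / 100) p m hP'two (by norm_num) (Nat.cast_nonneg _) (hp2P p hp)
      (by rw [hmd]; congr 1; norm_num)
  have hA0cm : ∀ p ∈ Q, Cnt (Pool.Agent.H24.CL.H k p k) (A0 p) m := fun p hp =>
    sr_Cnt_mono (hA0c p hp) (le_refl _) (hpm p hp)
  -- masses
  have hms : ∀ p ∈ Q, (p : ℝ) ^ KN k * volume.real (A0 p) ≤ Ω := fun p hp =>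
    sr_ms k M CW Ω p N₀ hM hCW hN0one (hpN1 p hp) hW hΩd (A0 p) (hA0u p hp)
  have hVΩ : volume.real V ≤ Ω := by
    rw [hVd]
    exact sr_V k M CW Ω N₀ hM hN0one hW hΩd
  have hmass : ∀ p ∈ Q, ρ₀ * Ω ≤ (p : ℝ) ^ (KN k - k) * ((1 / (p : ℝ)) * ∑ y ∈ range p,
      volume.real {a : X k | a ∈ Uns k p (GdL k p (A0 p) V τ) y ∧ phi p y a ∈ V}) := by
    intro p hp
    refine le_trans (le_of_eq ?_) (hA0s p hp)
    rw [hρ₀d, hΩd, ← hG, div_pow]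
    have hG0 : G ≠ 0 := by linarith only [hG1]
    have hC'0 : C' ≠ 0 := by linarith only [hC']
    field_simp
  -- the pool
  obtain ⟨S, hSQ, hSc⟩ : ∃ S ⊆ Q, S.card = K := by
    refine Finset.exists_subset_card_eq ?_
    have h1 : (K : ℝ) ≤ (Q.card : ℝ) := hK2.trans hQc
    exact_mod_cast h1
  obtain ⟨lo, hlod⟩ : ∃ lo : ℝ, lo = Real.exp (-(a * ds * x / 2)) := ⟨_, rfl⟩
  rw [← hlod] at hK3
  have hlo0 : 0 < lo := by rw [hlod]; exact Real.exp_pos _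
  have hlod' : lo = Real.exp (a * x) ^ (-(ds / 2)) := by
    rw [hlod, ← Real.exp_mul]; congr 1; ring
  have hE2v' : ∀ p ∈ S, ∀ q ∈ S, p ≠ q → (p : ℝ) ^ KN k * volume.real (E2 p q) ≤ lo * Ω := by
    intro p hp q hq hpq
    exact sr_E2v k M CW Ω (Real.exp (a * x)) ds q p N₀ hM (by linarith only [h2ax]) hCW hN0one hds
      (by rw [← Real.exp_half]; exact hplo q (hSQ hq)) lo hlod' hΩd (E2 p q)
      (hE2v p (hSQ hp) q (hSQ hq) hpq)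
  have hE2c' : ∀ p ∈ S, ∀ q ∈ S, p ≠ q →
      Cnt (Pool.Agent.H24.CL.H k p k ⊔ Pool.Agent.H24.CL.H k q k) (A0 p \ E2 p q) m := by
    intro p hp q hq hpq
    refine sr_Cnt_mono (hE2c p (hSQ hp) q (hSQ hq) hpq) ?_ (hpm q (hSQ hq))
    intro b hb
    exact ⟨hA0u p (hSQ hp) b hb.1, hb.2⟩
  have hdata : SDatP k S V (fun p => GdL k p (sA S A0 E2 p) V τ)
      (fun p y => gL k S V A0 E2 τ p y) P' m τ Ω :=
    srp_data k hk hGM hGMP S V A0 E2 P' ν m τ Ω hP1 hν1 hm1 hτ0 hτ1 hΩ0.le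
    (fun p hp => ⟨(hQ p (hSQ hp)).1, hpk p (hSQ hp), (hQ p (hSQ hp)).2.1, hp2P p (hSQ hp)⟩) hVm
    (fun p hp => hA0m p (hSQ hp)) (fun p hp q hq hpq => hE2m p (hSQ hp) q (hSQ hq) hpq)
    (fun p hp => hA0cm p (hSQ hp)) (fun p hp => hA01 p (hSQ hp)) hE2c'
    (fun p hp => hms p (hSQ hp))
  have hfib := see_fib k hk hGM S V A0 E2 m τ hm1 hτ0 (fun p hp => (hQ p (hSQ hp)).1) hVm
    (fun p hp => hA0m p (hSQ hp)) (fun p hp q hq hpq => hE2m p (hSQ hp) q (hSQ hq) hpq)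
    (fun p hp => hA0cm p (hSQ hp))
  -- the steps
  have hedge : ∀ i : H26.EW.Id S, ρ * Ω ≤ MT S V (fun p => GdL k p (sA S A0 E2 p) V τ)
      (fun p y => gL k S V A0 E2 τ p y) m [i] := by
    rw [hρd]
    refine hED k S V _ _ P' m τ Ω (ρ₀ / 2) (τ / 2) hdata (by linarith only [hτ0]) ?_ ?_
    · intro p hp b hb
      exact see_cells k hk hGM hSHP S V A0 E2 m τ hm1 hτ0 p (hQ p (hSQ hp)).1 (hpk p (hSQ hp)) hVm
        (hA0m p (hSQ hp)) (hA0cm p (hSQ hp)) (n1 p (hQ p (hSQ hp)).2.1) b hb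
    · intro p hp
      exact see_mass k hk hGM S V A0 E2 m τ Ω lo ρ₀ hm1 hτ0 hΩ0.le hlo0.le
        (fun p hp => ⟨(hQ p (hSQ hp)).1, hpk p (hSQ hp)⟩) hVm (fun p hp => hA0m p (hSQ hp))
        (fun p hp q hq hpq => hE2m p (hSQ hp) q (hSQ hq) hpq) (fun p hp => hA0cm p (hSQ hp))
        hE2v' (by rw [hSc]; exact hK3) p hp (hmass p (hSQ hp))
  obtain ⟨l, hl1, hl2, hl3⟩ := hGL k hk S V _ _ P' m τ Ω ρ r n hdata hfib hVΩ hΩ0 hρ0 hρ1 hedge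
    hnr (by rw [hSc]; exact hK1) n2
  -- the primes of the list
  have hSlQ : ∀ p ∈ Sl l, p ∈ Q := by
    intro p hp
    unfold Sl at hp
    rw [List.mem_toFinset, List.mem_map] at hp
    obtain ⟨i, -, rfl⟩ := hp
    exact hSQ i.2
  have hSlc : (Sl l).card = n := by
    unfold Sl
    rw [List.toFinset_card_of_nodup, List.length_map, hl2]
    exact (List.nodup_map_iff Subtype.val_injective).2 hl1
  have hDS : M ^ C₃ ≤ (DS (Sl l) : ℝ) := by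
    have g1 : (DS (Sl l) : ℝ) = ∏ p ∈ Sl l, (p : ℝ) := by unfold DS; push_cast; rfl
    rw [g1]
    calc M ^ C₃ = Real.exp (C₃ * Real.log M) := by
          rw [Real.rpow_def_of_pos hM0, mul_comm]
      _ ≤ Real.exp (n * (a * x / 2)) := Real.exp_le_exp.mpr hnL
      _ = Real.exp (a * x / 2) ^ n := Real.exp_nat_mul _ _
      _ = ∏ _p ∈ Sl l, Real.exp (a * x / 2) := by rw [Finset.prod_const, hSlc]
      _ ≤ ∏ p ∈ Sl l, (p : ℝ) := by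
          apply Finset.prod_le_prod
          · intro p _; exact (Real.exp_pos _).le
          · intro p hp; exact hplo p (hSlQ p hp)
  -- the density
  obtain ⟨κ, hκd⟩ : ∃ κ : ℝ, κ = ρ ^ (2 * n) / 16 := ⟨_, rfl⟩
  rw [← hκd] at n3
  have hρn1 : ρ ^ (2 * n) ≤ 1 := pow_le_one₀ hρ0.le hρ1
  have hρn0 : 0 < ρ ^ (2 * n) := pow_pos hρ0 _
  have hκ0 : 0 < κ := by rw [hκd]; positivity
  have hκ1 : κ ≤ 1 := by rw [hκd]; linarith only [hρn1]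
  have hex : Real.exp (-ε * x) ≤ κ / 2 := by linarith only [n3]
  have hε1 : ε * x ≤ 1 / 8 * x := mul_le_mul_of_nonneg_right hε8 (by linarith only [hx])
  have hMx : Real.exp x ≤ M := by
    calc Real.exp x ≤ Real.exp (Real.log M) := Real.exp_le_exp.mpr hxL
      _ = M := Real.exp_log hM0
  have hκM : 1 / M ≤ κ := by
    calc 1 / M ≤ 1 / Real.exp x := one_div_le_one_div_of_le (Real.exp_pos _) hMx
      _ = Real.exp (-x) := by rw [Real.exp_neg, one_div]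
      _ ≤ Real.exp (-ε * x) := by
          apply Real.exp_le_exp.mpr
          linarith only [hε1, hx]
      _ ≤ κ := by linarith only [hex, hκ0]
  have hκN : 4096 * M / κ ≤ (N₀ : ℝ) := by
    rw [div_le_iff₀ hκ0]
    have h1 : (2048 : ℝ) ≤ Real.exp (5 / 8 * x) := by
      have h2 : (2.7 : ℝ) ≤ Real.exp 1 := by
        have := Real.exp_one_gt_d9
        linarith only [this]
      calc (2048 : ℝ) ≤ 2.7 ^ 10 := by norm_num
        _ ≤ Real.exp 1 ^ 10 := pow_le_pow_left₀ (by norm_num) h2 10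
        _ = Real.exp 10 := by rw [← Real.exp_nat_mul]; norm_num
        _ ≤ Real.exp (5 / 8 * x) := Real.exp_le_exp.mpr (by linarith only [hx])
    calc 4096 * M = 2 * (2048 * M) := by ring
      _ ≤ 2 * (Real.exp (5 / 8 * x) * M) := by
          have := mul_le_mul_of_nonneg_right h1 hM0.le
          linarith only [this]
      _ ≤ 2 * (Real.exp (3 / 4 * x) * Real.exp (-ε * x) * M) := by
          have h3 : Real.exp (5 / 8 * x) ≤ Real.exp (3 / 4 * x) * Real.exp (-ε * x) := by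
            rw [← Real.exp_add]
            apply Real.exp_le_exp.mpr
            linarith only [hε1]
          have := mul_le_mul_of_nonneg_right h3 hM0.le
          linarith only [this]
      _ = (M * Real.exp (3 / 4 * x)) * (2 * Real.exp (-ε * x)) := by ring
      _ ≤ (N₀ : ℝ) * κ := mul_le_mul hN0M n3 (by positivity) hN0R.le
  have hN3 : (N₀ : ℝ) ≤ M ^ (3 : ℝ) := by
    have h1 : (N₀ : ℝ) ≤ N₁ := by exact_mod_cast hN01
    have h2 : Real.exp (2 * x) ≤ M ^ 2 := by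
      calc Real.exp (2 * x) = Real.exp x ^ 2 := by
            rw [← Real.exp_nat_mul]; norm_num
        _ ≤ M ^ 2 := pow_le_pow_left₀ (Real.exp_pos _).le hMx 2
    calc (N₀ : ℝ) ≤ M * Real.exp (2 * x) := h1.trans hN2
      _ ≤ M * M ^ 2 := mul_le_mul_of_nonneg_left h2 hM0.le
      _ = M ^ (3 : ℝ) := by
          rw [show (3 : ℝ) = ((3 : ℕ) : ℝ) by norm_num, Real.rpow_natCast]
          ring
  -- the seen points
  obtain ⟨U, hUd⟩ : ∃ U : Set (X k), U = toMeasurable volume (WS k N₀ (M ^ CR) (256 * M / κ)) :=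
    ⟨_, rfl⟩
  have hUm : MeasurableSet U := by rw [hUd]; exact measurableSet_toMeasurable _ _
  have hUs : WS k N₀ (M ^ CR) (256 * M / κ) ⊆ U := by rw [hUd]; exact subset_toMeasurable _ _
  have hUv : volume.real U = volume.real (WS k N₀ (M ^ CR) (256 * M / κ)) := by
    rw [hUd, measureReal_def, measureReal_def, measure_toMeasurable]
  have hsen := hSE k S V _ _ P' m τ Ω κ U l hdata hfib hVΩ hl1 hUm hκ0.le (by
    intro b hb
    rw [hVd] at hb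
    obtain ⟨S₁, hS1, hS2⟩ := hWE M κ N₀ (Sl l) b hM₀M hκM hκ1 hκN hN3
      (fun p hp => (hQ p (hSlQ p hp)).1) hDS hb
    refine ⟨S₁, hS1, fun y hy hy2 => hUs (hS2 y hy ?_)⟩
    rw [hVd] at hy2
    exact hy2)
  have hvol : ρ ^ (2 * n) / 32 * Ω ≤ volume.real (WS k N₀ (M ^ CR) (256 * M / κ)) := by
    rw [← hUv]
    have h1 : κ * Ω = ρ ^ (2 * n) * Ω / 16 := by rw [hκd]; ring
    rw [h1] at hsen
    linarith only [hsen, hl3]
  have hsub : WS k N₀ (M ^ CR) (256 * M / κ) ⊆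
      WS k N₀ ((N₀ : ℝ) ^ CR) (128 * M / Real.exp (-ε * x)) := by
    refine hSM k N₀ _ _ _ _ ?_ (by positivity) ?_
    · refine Real.rpow_le_rpow hM0.le ?_ (by linarith only [hCR])
      refine le_trans ?_ hN0M
      exact le_mul_of_one_le_right hM0.le (Real.one_le_exp (by linarith only [hx]))
    · rw [div_le_div_iff₀ hκ0 (Real.exp_pos _)]
      have := mul_le_mul_of_nonneg_left n3 (show 0 ≤ 128 * M by positivity)
      linarith only [this]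
  refine ⟨N₀, ?_, hN01, ?_⟩
  · refine le_trans (mul_le_mul_of_nonneg_left (Real.exp_le_exp.mpr ?_) hM0.le) hN0M
    linarith only [hx]
  · have g1 : M ^ KN k * 64 ≤ (N₀ : ℝ) ^ KN k * Ω := by
      rw [hΩd, mul_div_cancel₀ _ hN0K.ne']
      have g2 : (64 : ℝ) ≤ CW * 64 ^ KN k := by
        have g3 : (64 : ℝ) ≤ 64 ^ KN k := le_self_pow₀ (by norm_num)
          (by have := sr_KN_le k (by omega); omega)
        calc (64 : ℝ) ≤ 64 ^ KN k := g3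
          _ ≤ CW * 64 ^ KN k := le_mul_of_one_le_left (by positivity) hCW
      calc M ^ KN k * 64 ≤ M ^ KN k * (CW * 64 ^ KN k) :=
            mul_le_mul_of_nonneg_left g2 (by positivity)
        _ = CW * 64 ^ KN k * M ^ KN k := by ring
    have hMK : 0 < M ^ KN k := pow_pos hM0 _
    have g4 : Real.exp (-ε * x) ≤ ρ ^ (2 * n) * 2 := by
      have h1 : κ = ρ ^ (2 * n) / 16 := hκd
      linarith only [hex, h1, hρn0]
    calc M ^ KN k * Real.exp (-ε * x) ≤ M ^ KN k * (ρ ^ (2 * n) * 2) :=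
          mul_le_mul_of_nonneg_left g4 hMK.le
      _ = ρ ^ (2 * n) / 32 * (M ^ KN k * 64) := by ring
      _ ≤ ρ ^ (2 * n) / 32 * ((N₀ : ℝ) ^ KN k * Ω) :=
          mul_le_mul_of_nonneg_left g1 (by positivity)
      _ = (N₀ : ℝ) ^ KN k * (ρ ^ (2 * n) / 32 * Ω) := by ring
      _ ≤ (N₀ : ℝ) ^ KN k * volume.real (WS k N₀ ((N₀ : ℝ) ^ CR)
            (128 * M / Real.exp (-ε * x))) :=
          mul_le_mul_of_nonneg_left
            (hvol.trans (measureReal_mono hsub (measure_ne_top _ _))) hN0K.le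

theorem pf_SEE (hWT : L_WT) (hFP : L_FP) (hPP : L_PP) (hGM : L_GM) (hSHP : T_SHP)
    (hGMP : T_GMP) (hPRP : T_PRP) (h1 : T_EDG) (h2 : T_GLO) (h3 : T_SEN) (h4 : T_WEH)
    (h5 : T_WSM) : Pool.Agent.H79.HF.T_SEE (fun L => L) := by
  intro k hk
  obtain ⟨CW, hCW, hW⟩ := hWT k hk
  obtain ⟨ds, Ds, hds0, hFP⟩ := hFP k hk (1 / 100) (by norm_num) (by norm_num)
  obtain ⟨Dc, d, C, C', hDc0, hd0, hd1, hC, hC', hPR⟩ := hPRP k hk
  obtain ⟨C₃, CR, M₀, hC₃, hCR, hM₀, hWE⟩ := h4 k hk 3 (by norm_num)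
  obtain ⟨P₀, hPP⟩ := hPP
  refine ⟨CR, hCR, fun ε hε hε8 => ?_⟩
  set Ds' : ℝ := max Ds 0 with hDs'
  have hDs0 : 0 ≤ Ds' := le_max_right _ _
  set a : ℝ := 1 / (16 * (1 + Dc + Ds')) with ha
  have hden : 0 < 16 * (1 + Dc + Ds') := by positivity
  have ha0 : 0 < a := by positivity
  have haM : a * (16 * (1 + Dc + Ds')) = 1 := by rw [ha]; field_simp
  have ha16 : a ≤ 1 / 16 := by
    rw [ha]
    apply one_div_le_one_div_of_le (by norm_num)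
    linarith
  have haDc : 8 * (a * Dc) ≤ 1 := by
    have h1 : 0 ≤ a * Ds' := by positivity
    have h2 : 0 ≤ a * Dc := by positivity
    nlinarith
  have haDs : 8 * (a * Ds') ≤ 1 := by
    have h1 : 0 ≤ a * Ds' := by positivity
    have h2 : 0 ≤ a * Dc := by positivity
    nlinarith
  obtain ⟨q₀, hPR⟩ := hPR (4 / a)
  obtain ⟨q₁, hFP⟩ := hFP (4 / a)
  obtain ⟨G, hG⟩ : ∃ G : ℝ, G = CW * 64 ^ KN k := ⟨_, rfl⟩
  have hG1 : 1 ≤ G := by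
    rw [hG]
    exact one_le_mul_of_one_le_of_one_le hCW (one_le_pow₀ (by norm_num))
  obtain ⟨Cr, hCr⟩ : ∃ Cr : ℝ, Cr = C + C' + Real.log (4 * C * C' * G) := ⟨_, rfl⟩
  obtain ⟨Bc, hBc⟩ : ∃ Bc : ℝ, Bc = 8 + 2 * Cr + Real.log k + C' + Real.log C' := ⟨_, rfl⟩
  have hBc0 : 0 < Bc := by
    have h1 : 0 ≤ Real.log (4 * C * C' * G) := by
      apply Real.log_nonneg
      have h1 : 1 ≤ C * (C' * G) :=
        one_le_mul_of_one_le_of_one_le hC (one_le_mul_of_one_le_of_one_le hC' hG1)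
      linarith [h1, show 4 * C * C' * G = 4 * (C * (C' * G)) by ring]
    have h2 : 0 ≤ Real.log k := by
      apply Real.log_nonneg
      exact_mod_cast (by omega : 1 ≤ k)
    have h3 : 0 ≤ Real.log C' := Real.log_nonneg hC'
    rw [hBc, hCr]
    linarith
  set Cn : ℝ := 2 * (2 * C₃ / a + 1) with hCn
  have hCn0 : 0 < Cn := by positivity
  set μ : ℝ := min (min (a / 40) (a * ds / 2)) (min (a * d / 2) ε) with hμ
  have hμ0 : 0 < μ := by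
    apply lt_min (lt_min _ _) (lt_min _ hε) <;> positivity
  set X₀ : ℝ := 16 + |P₀| / a + 2 * ((q₀ : ℝ) + q₁ + k + 2) / a + 32 / a + M₀ with hX₀
  have hP0a : 0 ≤ |P₀| / a := by positivity
  have hBa : 0 ≤ 2 * ((q₀ : ℝ) + q₁ + k + 2) / a := by positivity
  have h32a : 0 ≤ 32 / a := by positivity
  refine ⟨μ / (Bc * Cn), X₀, by positivity, by linarith, ?_⟩
  intro M x H' N₁ hM hxX hxL hH hHx hN1 hN2 hbig
  set c₀ : ℝ := μ / (Bc * Cn) with hc₀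
  have hc0 : 0 < c₀ := by positivity
  set L : ℝ := Real.log M with hL
  have x1 : 16 ≤ x := by linarith
  have hx0 : 0 < x := by linarith
  have hL0 : 0 < L := by linarith
  have hHx' : (H' + 1) * L ≤ c₀ * x ^ 2 := by
    rw [← le_div_iff₀ hL0]
    exact hHx
  have x2 : P₀ ≤ Real.exp (a * x) := by
    have h1 : |P₀| / a ≤ x := by linarith
    rw [div_le_iff₀ ha0] at h1
    calc P₀ ≤ |P₀| := le_abs_self _
      _ ≤ a * x := by linarith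
      _ ≤ Real.exp (a * x) := le_exp_self _
  have x3 : (q₀ : ℝ) + q₁ + k + 2 ≤ Real.exp (a * x / 2) := by
    have h1 : 2 * ((q₀ : ℝ) + q₁ + k + 2) / a ≤ x := by linarith
    rw [div_le_iff₀ ha0] at h1
    calc (q₀ : ℝ) + q₁ + k + 2 ≤ a * x / 2 := by linarith
      _ ≤ Real.exp (a * x / 2) := le_exp_self _
  have x4 : 4 ≤ Real.exp (a * x / 8) := by
    have h1 : 32 / a ≤ x := by linarith
    rw [div_le_iff₀ ha0] at h1
    calc (4 : ℝ) ≤ a * x / 8 := by linarith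
      _ ≤ Real.exp (a * x / 8) := le_exp_self _
  have x5 : M₀ ≤ M := by
    have hM0 : 0 < M := by linarith
    calc M₀ ≤ x := by linarith
      _ ≤ Real.exp x := le_exp_self _
      _ ≤ Real.exp (Real.log M) := Real.exp_le_exp.mpr hxL
      _ = M := Real.exp_log hM0
  -- the number of the primes
  set n₀ : ℕ := ⌈2 * C₃ * L / (a * x)⌉₊ with hn₀
  have hax : 0 < a * x := by positivity
  have hn01 : 1 ≤ n₀ := Nat.one_le_ceil_iff.mpr (by positivity)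
  have hnlo : 2 * C₃ * L / (a * x) ≤ n₀ := Nat.le_ceil _
  have hnhi : (n₀ : ℝ) ≤ 2 * C₃ * L / (a * x) + 1 :=
    (Nat.ceil_lt_add_one (by positivity)).le
  obtain ⟨r, hr1, hr2⟩ : ∃ r : ℕ, n₀ ≤ 2 ^ r ∧ 2 ^ r ≤ 2 * n₀ := by
    refine ⟨Nat.log 2 n₀ + 1, (Nat.lt_pow_succ_log_self (by norm_num) n₀).le, ?_⟩
    rw [pow_succ, mul_comm]
    exact Nat.mul_le_mul_left 2 (Nat.pow_log_le_self 2 (by omega))
  obtain ⟨n, hn⟩ : ∃ n : ℕ, n = 2 ^ r := ⟨_, rfl⟩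
  rw [← hn] at hr1 hr2
  have hn1 : 1 ≤ n := hn01.trans hr1
  have hr1' : (n₀ : ℝ) ≤ n := by exact_mod_cast hr1
  have hr2' : (n : ℝ) ≤ 2 * n₀ := by exact_mod_cast hr2
  have hnCn : (n : ℝ) * x ≤ Cn * L := by
    have h1 : (n : ℝ) * x ≤ 2 * (2 * C₃ * L / (a * x) + 1) * x :=
      mul_le_mul_of_nonneg_right (by linarith) hx0.le
    have h2 : 2 * (2 * C₃ * L / (a * x) + 1) * x = 2 * (2 * C₃ / a * L + x) := by
      field_simp
    rw [h2] at h1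
    have h3 : Cn * L = 2 * (2 * C₃ / a * L + L) := by rw [hCn]; ring
    rw [h3]
    linarith
  have hnL : C₃ * L ≤ n * (a * x / 2) := by
    rw [div_le_iff₀ hax] at hnlo
    have h1 : (n₀ : ℝ) * (a * x) ≤ n * (a * x) := mul_le_mul_of_nonneg_right hr1' hax.le
    linarith
  -- the main number
  obtain ⟨g, hg⟩ : ∃ g : ℝ, g = (n : ℝ) * (H' + 1) := ⟨_, rfl⟩
  have hgx : Bc * g ≤ μ * x := by
    have h1 : g * (x * L) ≤ (Cn * c₀ * x) * (x * L) := by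
      calc g * (x * L) = ((n : ℝ) * x) * ((H' + 1) * L) := by rw [hg]; ring
        _ ≤ (Cn * L) * (c₀ * x ^ 2) := by
            apply mul_le_mul hnCn hHx' (by positivity) (by positivity)
        _ = (Cn * c₀ * x) * (x * L) := by ring
    have h2 : g ≤ Cn * c₀ * x := le_of_mul_le_mul_right h1 (by positivity)
    have h3 : c₀ * (Bc * Cn) = μ := by
      rw [hc₀]
      field_simp
    calc Bc * g ≤ Bc * (Cn * c₀ * x) := mul_le_mul_of_nonneg_left h2 hBc0.le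
      _ = (c₀ * (Bc * Cn)) * x := by ring
      _ = μ * x := by rw [h3]
  have b1 : Bc * g ≤ a * x / 40 := by
    refine hgx.trans ?_
    calc μ * x ≤ (a / 40) * x :=
          mul_le_mul_of_nonneg_right ((min_le_left _ _).trans (min_le_left _ _)) hx0.le
      _ = a * x / 40 := by ring
  have b2 : Bc * g ≤ a * ds * x / 2 := by
    refine hgx.trans ?_
    calc μ * x ≤ (a * ds / 2) * x :=
          mul_le_mul_of_nonneg_right ((min_le_left _ _).trans (min_le_right _ _)) hx0.le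
      _ = a * ds * x / 2 := by ring
  have b3 : Bc * g ≤ a * d * x / 2 := by
    refine hgx.trans ?_
    calc μ * x ≤ (a * d / 2) * x :=
          mul_le_mul_of_nonneg_right ((min_le_right _ _).trans (min_le_left _ _)) hx0.le
      _ = a * d * x / 2 := by ring
  have b4 : Bc * g ≤ ε * x :=
    hgx.trans (mul_le_mul_of_nonneg_right ((min_le_right _ _).trans (min_le_right _ _)) hx0.le)
  obtain ⟨P', Q, hP'1, hP'2, hQ, hQc⟩ := hPP (Real.exp (a * x)) x2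
  rw [← Real.exp_half] at hP'1
  have e8 : Real.exp (a * x) ^ (-(1 / 8 : ℝ)) = Real.exp (-(a * x / 8)) := by
    rw [← Real.exp_mul]; congr 1; ring
  have e4 : Real.exp (a * x) ^ (1 / 4 : ℝ) = Real.exp (a * x / 4) := by
    rw [← Real.exp_mul]; congr 1; ring
  rw [e8] at hQ
  rw [e4] at hQc
  exact see_main k hk hGM hGMP hSHP h1 h2 h3 h5 CW a d ds ε C₃ CR M₀ C C' Cr Bc Dc Ds G g q₀ q₁
    hCW hC hC' hCR hW hFP hPR hWE ha0 ha16 hDc0.le haDc haDs hd0 hds0 hε8 hG hCr hBc M x H' N₁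
    n r (by linarith) x5 x1 hxL hH hn1 hn hnL hg b1 b2 b3 b4 P' Q hP'1 hP'2 hQ hQc x3 x4 hN1 hN2
    hbig

end Pool.Agent.H79.EW
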