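import Pool.Agent.H26.EW.TargetsT
import Pool.Agent.H26.ES.Targets
import Pool.Agent.H63.LVP.LC

/-!
# Row WOK: the torus satisfies the axioms of a world (helper79)
-/

set_option autoImplicit false

open Finset MeasureTheory

namespace Pool.Agent.H79.EW

open Pool.Agent.H24.CL Pool.Agent.H24.LV Pool.Agent.H26.ES Pool.Agent.H26.EW
open Pool.Agent.H63.LVP (mem_H kr_H sub_H DS_erase DS_pos rTO')

theorem mHF {k q r : ℕ} (hq : 1 ≤ q) {a : X k} : a ∈ HF k q r ↔ a ∈ H k q r :=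
  (rTO' k q hq).2.1 r a

theorem phi_H {k q r D x : ℕ} {a : X k} (h : a ∈ H k q r) : phi D x a ∈ H k q r := by
  rw [mem_H] at h ⊢
  rw [← map_nsmul, h, map_zero]

theorem kill (hCO : L_CO) {k q r D c : ℕ} (hD : q ∣ D) (hc : c % q = r) {κ : X k}
    (h : phi q r κ = 0) : phi D c κ = 0 := by
  obtain ⟨E, rfl⟩ := hD
  have h1 := hCO.1 k E q (c / q) (c % q) κ
  rw [Nat.mod_add_div, mul_comm E q, hc, h, map_zero] at h1
  exact h1.symm

theorem cnt_of {k : ℕ} {Γ Λ : AddSubgroup (X k)} {G : Set (X k)} {m : ℝ} (h : CntM Γ Λ G m)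
    (f : X k →+ X k) (Y : Finset (X k)) (h1 : ∀ y ∈ Y, f y ∈ G)
    (h2 : ∀ y ∈ Y, ∀ y' ∈ Y, f (y - y') ∈ Γ)
    (h3 : ∀ y ∈ Y, ∀ y' ∈ Y, f (y - y') ∈ Λ → y = y') : (Y.card : ℝ) ≤ m := by
  classical
  have hinj : Set.InjOn f Y := by
    intro y hy y' hy' he
    refine h3 y hy y' hy' ?_
    rw [map_sub, he, sub_self]
    exact Λ.zero_mem
  rw [← Finset.card_image_of_injOn hinj]
  refine h _ ?_ ?_ ?_
  · intro z hz
    obtain ⟨y, hy, rfl⟩ := Finset.mem_image.1 hz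
    exact h1 y hy
  · intro z hz z' hz'
    obtain ⟨y, hy, rfl⟩ := Finset.mem_image.1 hz
    obtain ⟨y', hy', rfl⟩ := Finset.mem_image.1 hz'
    rw [← map_sub]
    exact h2 y hy y' hy'
  · intro z hz z' hz' he
    obtain ⟨y, hy, rfl⟩ := Finset.mem_image.1 hz
    obtain ⟨y', hy', rfl⟩ := Finset.mem_image.1 hz'
    rw [← map_sub] at he
    rw [h3 y hy y' hy' he]

theorem H_cap {k p q : ℕ} (h : p.Coprime q) {a : X k} (h1 : a ∈ H k p k) (h2 : a ∈ H k q k) :
    a = 0 := by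
  rw [mem_H] at h1 h2
  have h3 := addOrderOf_dvd_of_nsmul_eq_zero h1
  have h4 := addOrderOf_dvd_of_nsmul_eq_zero h2
  have h5 : (p ^ k).Coprime (q ^ k) := Nat.Coprime.pow k k h
  have h6 := Nat.dvd_gcd h3 h4
  rw [h5.gcd_eq_one] at h6
  exact AddMonoid.addOrderOf_eq_one_iff.1 (Nat.dvd_one.1 h6)

section

variable {Q : Finset ℕ} (hQ : ∀ p ∈ Q, p.Prime)

include hQ

theorem dvd_i (i : H26.EW.Id Q) : i.1 ∣ DS Q := by
  unfold DS
  exact Finset.dvd_prod_of_mem (fun p => p) i.2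

theorem div_i (i : H26.EW.Id Q) : DS Q / i.1 = DS (Q.erase i.1) := by
  rw [← DS_erase i.2]
  exact Nat.mul_div_cancel_left _ (hQ _ i.2).pos

theorem dvd_ij {i j : H26.EW.Id Q} (h : i ≠ j) : j.1 ∣ DS Q / i.1 := by
  rw [div_i hQ i]
  unfold DS
  refine Finset.dvd_prod_of_mem (fun p => p) ?_
  rw [Finset.mem_erase]
  exact ⟨fun he => h (Subtype.ext he.symm), j.2⟩

theorem cop_i (i : H26.EW.Id Q) : (DS Q / i.1).Coprime i.1 := by
  rw [div_i hQ i]
  unfold DS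
  refine Nat.Coprime.prod_left fun q hq => ?_
  rw [Finset.mem_erase] at hq
  exact (Nat.coprime_primes (hQ _ hq.2) (hQ _ i.2)).2 hq.1

theorem cop_ij {i j : H26.EW.Id Q} (h : i ≠ j) : i.1.Coprime j.1 :=
  (Nat.coprime_primes (hQ _ i.2) (hQ _ j.2)).2 fun he => h (Subtype.ext he)

theorem mul_i (i : H26.EW.Id Q) : i.1 * (DS Q / i.1) = DS Q := Nat.mul_div_cancel' (dvd_i hQ i)

end

/-- WOK: the axioms. -/
theorem pf_WOK (hCO : L_CO) (hSHP : T_SHP) (hCRP : T_CRP) : T_WOK := by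
  classical
  intro k Q V Ge Gd P m τ Ω h hcn b₀
  have hQ : ∀ p ∈ Q, p.Prime := fun p hp => (h.pr p hp).1
  obtain ⟨c1, -, -, c4, -⟩ := hCRP Q hQ
  have hpos : ∀ i : H26.EW.Id Q, 1 ≤ i.1 := fun i => (hQ _ i.2).pos
  have hne : ∀ i : H26.EW.Id Q, 0 < i.1 := fun i => (hQ _ i.2).pos
  -- the kernels
  have hKr : ∀ (i : H26.EW.Id Q) (r : ℕ) (κ : X k), κ ∈ Kr k i.1 r ↔ phi i.1 r κ = 0 :=
    fun i r κ => (hCO.2.2.2.1 k i.1 r (hpos i)).2 κ
  have f1 : ∀ (j : H26.EW.Id Q) (x : Pos (pp Q)) (κ : X k), κ ∈ Kr k j.1 (x j) →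
      phi (DS Q) (cr Q x) κ = 0 := fun j x κ hκ =>
    kill hCO (dvd_i hQ j) ((c1 x).2 j) ((hKr j _ κ).1 hκ)
  have f1' : ∀ (i j : H26.EW.Id Q) (x : Pos (pp Q)), i ≠ j →
      cr Q x % (DS Q / i.1) % j.1 = (x j : ℕ) := fun i j x hij => by
    rw [Nat.mod_mod_of_dvd _ (dvd_ij hQ hij)]
    exact (c1 x).2 j
  have f2 : ∀ (i j : H26.EW.Id Q) (x : Pos (pp Q)) (κ : X k), i ≠ j → κ ∈ Kr k j.1 (x j) →
      phi (DS Q / i.1) (cr Q x % (DS Q / i.1)) κ = 0 := fun i j x κ hij hκ =>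
    kill hCO (dvd_ij hQ hij) (f1' i j x hij) ((hKr j _ κ).1 hκ)
  have f3 : ∀ (i : H26.EW.Id Q) (x : Pos (pp Q)) (κ : X k), κ ∈ HF k i.1 1 →
      phi (DS Q) (cr Q x) κ = 0 := fun i x κ hκ =>
    kill hCO (dvd_i hQ i) rfl (hCO.2.1 k i.1 _ κ ((mHF (hpos i)).1 hκ))
  have f4 : ∀ (i : H26.EW.Id Q) (x : Pos (pp Q)) (g : X k),
      phi i.1 (cr Q x / (DS Q / i.1)) (phi (DS Q / i.1) (cr Q x % (DS Q / i.1)) g) =
        phi (DS Q) (cr Q x) g := fun i x g => by
    rw [hCO.1 k i.1 (DS Q / i.1) _ _ g, Nat.mod_add_div, mul_i hQ i]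
  have f5 : ∀ (i : H26.EW.Id Q) (c : ℕ) (κ : X k), κ ∈ H k i.1 k →
      phi (DS Q / i.1) c κ ∈ H k i.1 1 → κ ∈ H k i.1 1 := fun i c κ h1 h2 =>
    sub_H hCO (cop_i hQ i) h1 h2
  have hKN : k ≤ KN k := by
    unfold KN
    rw [Nat.le_div_iff_mul_le (by norm_num)]
    have := h.hk
    nlinarith
  refine
    { hp := fun i => hne i
      hm := h.hm
      hk := Nat.cast_nonneg k
      hN := fun i => by
        show (0 : ℝ) ≤ (i.1 : ℝ) ^ (KN k - k)
        positivity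
      K0 := ?_
      Ka := ?_
      Kn := ?_
      KΓ := ?_
      L0 := ?_
      La := ?_
      Ln := ?_
      LK := ?_
      card := ?_
      dis := ?_
      Tadd := ?_
      Vinv := ?_
      GdV := fun i x g hg => hg.1
      GdGe := fun i x g hg => h.sub _ i.2 _ hg.2
      inv := ?_
      invL := ?_
      Geinv := ?_
      GeL := ?_
      Gepos := ?_
      uniq := ?_
      sep := ?_
      list1 := ?_
      list2 := ?_ }
  · intro i r
    exact (hKr i r 0).2 (map_zero _)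
  · intro i r a ha b hb
    refine (hKr i r _).2 ?_
    rw [map_add, (hKr i r a).1 ha, (hKr i r b).1 hb, add_zero]
  · intro i r a ha
    refine (hKr i r _).2 ?_
    rw [map_neg, (hKr i r a).1 ha, neg_zero]
  · intro i r a ha
    exact kr_H (hpos i) ha
  · intro i
    exact (mHF (hpos i)).2 (AddSubgroup.zero_mem _)
  · intro i a ha b hb
    exact (mHF (hpos i)).2 (AddSubgroup.add_mem _ ((mHF (hpos i)).1 ha) ((mHF (hpos i)).1 hb))
  · intro i a ha
    exact (mHF (hpos i)).2 (AddSubgroup.neg_mem _ ((mHF (hpos i)).1 ha))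
  · intro i r a ha
    exact (hKr i r a).2 (hCO.2.1 k i.1 _ a ((mHF (hpos i)).1 ha))
  · intro i r
    show ((Kr k i.1 r).card : ℝ) = (i.1 : ℝ) ^ (KN k - k) * ((HF k i.1 1).card : ℝ)
    rw [(hCO.2.2.2.1 k i.1 r (hpos i)).1, (rTO' k i.1 (hpos i)).2.2.1 1, one_mul]
    push_cast
    rw [← pow_add, Nat.sub_add_cancel hKN]
  · intro i j hij a ha hb
    exact H_cap (cop_ij hQ hij) ha hb
  · intro i γ hγ g hg
    have hDS : 1 ≤ DS Q := DS_pos hQ
    obtain ⟨e, he, rfl⟩ := Finset.mem_image.1 hg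
    refine Finset.mem_image.2 ⟨e + γ, ?_, by rw [add_assoc]⟩
    refine (mHF hDS).2 (AddSubgroup.add_mem _ ((mHF hDS).1 he) ?_)
    have hγ' : γ ∈ H k i.1 k := hγ
    rw [mem_H] at hγ' ⊢
    obtain ⟨e, he⟩ := pow_dvd_pow_of_dvd (dvd_i hQ i) k
    rw [he, mul_comm, mul_nsmul', hγ', smul_zero]
  · intro x i κ hκ g hg
    show phi (DS Q) (cr Q x) (g + κ) ∈ V
    rw [map_add, f1 i x κ hκ, add_zero]
    exact hg
  · intro i j x hij κ hκ g hg
    refine ⟨?_, ?_⟩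
    · show phi (DS Q) (cr Q x) (g + κ) ∈ V
      rw [map_add, f1 j x κ hκ, add_zero]
      exact hg.1
    · show phi (DS Q / i.1) (cr Q x % (DS Q / i.1)) (g + κ) ∈ Gd i.1 _
      rw [map_add, f2 i j x κ hij hκ, add_zero]
      exact hg.2
  · intro i x κ hκ g hg
    refine ⟨?_, ?_⟩
    · show phi (DS Q) (cr Q x) (g + κ) ∈ V
      rw [map_add, f3 i x κ hκ, add_zero]
      exact hg.1
    · show phi (DS Q / i.1) (cr Q x % (DS Q / i.1)) (g + κ) ∈ Gd i.1 _
      rw [map_add]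
      exact h.inv _ i.2 _ _ hg.2 _ (phi_H ((mHF (hpos i)).1 hκ))
  · intro i j x hij κ hκ g hg
    show phi (DS Q / i.1) (cr Q x % (DS Q / i.1)) (g + κ) ∈ Ge i.1
    rw [map_add, f2 i j x κ hij hκ, add_zero]
    exact hg
  · intro i x κ hκ g hg
    show phi (DS Q / i.1) (cr Q x % (DS Q / i.1)) (g + κ) ∈ Ge i.1
    rw [map_add]
    exact h.invE _ i.2 _ hg _ (phi_H ((mHF (hpos i)).1 hκ))
  · intro i x r
    show {b : X k | phi (DS Q / i.1) (cr Q (Function.update x i r) % (DS Q / i.1)) b ∈ Ge i.1} =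
      {b : X k | phi (DS Q / i.1) (cr Q x % (DS Q / i.1)) b ∈ Ge i.1}
    rw [c4 x i r]
  · intro i x g hg κ hκ hg'
    refine (mHF (hpos i)).2 (f5 i (cr Q x % (DS Q / i.1)) κ (kr_H (hpos i) hκ) ?_)
    have hy : cr Q x / (DS Q / i.1) < i.1 := by
      rw [Nat.div_lt_iff_lt_mul (Nat.div_pos (Nat.le_of_dvd (DS_pos hQ) (dvd_i hQ i)) (hne i)),
        mul_i hQ i]
      exact (c1 x).1
    have h1 := h.uni _ i.2 _ hy _ hg'.2 _ hg.2 (by
      rw [f4, f4, map_add, f1 i x κ hκ, add_zero])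
    rw [← map_sub, add_sub_cancel_left] at h1
    exact h1
  · intro i γ hγ hγL R hR
    have h1 : γ - 0 ∉ H k i.1 1 := by
      rw [sub_zero]
      intro h2
      exact hγL ((mHF (hpos i)).2 h2)
    have h2 := hSHP.1 k i.1 (hQ _ i.2) (h.pr _ i.2).2.1 γ 0 h1
      (R.image (Fin.val : Fin (pp Q i) → ℕ))
      (by
        intro n hn
        obtain ⟨r, -, rfl⟩ := Finset.mem_image.1 hn
        exact Finset.mem_range.2 r.2)
      (by
        intro n hn
        obtain ⟨r, hr, rfl⟩ := Finset.mem_image.1 hn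
        rw [map_zero]
        exact (hKr i r γ).1 (hR r hr))
    rw [Finset.card_image_of_injective _ Fin.val_injective] at h2
    have h3 : R.card ≤ k := h2.trans (Nat.sub_le _ _)
    show (R.card : ℝ) ≤ (k : ℝ)
    exact_mod_cast h3
  · intro i x g Y hY hY2
    refine cnt_of (hcn _ i.2) (phi (DS Q / i.1) (cr Q x % (DS Q / i.1))) Y
      (fun y hy => (hY y hy).1) ?_ ?_
    · intro y hy y' hy'
      obtain ⟨a, ha, rfl⟩ := (hY y hy).2
      obtain ⟨a', ha', rfl⟩ := (hY y' hy').2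
      rw [add_sub_add_left_eq_sub]
      exact phi_H (AddSubgroup.sub_mem _ ha ha')
    · intro y hy y' hy' he
      obtain ⟨a, ha, ha2⟩ := (hY y hy).2
      obtain ⟨a', ha', ha2'⟩ := (hY y' hy').2
      refine (hY2 y' hy' y hy ⟨y - y', ?_, by abel⟩).symm
      refine (mHF (hpos i)).2 (f5 i _ _ ?_ he)
      rw [ha2, ha2', add_sub_add_left_eq_sub]
      exact AddSubgroup.sub_mem _ ha ha'
  · intro i j x g hij Y hY hY2
    refine cnt_of (h.fib2 _ i.2 _ j.2 fun he => hij (Subtype.ext he))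
      (phi (DS Q / i.1) (cr Q x % (DS Q / i.1))) Y (fun y hy => (hY y hy).1) ?_ ?_
    · intro y hy y' hy'
      obtain ⟨a, ha, b, hb, rfl⟩ := (hY y hy).2
      obtain ⟨a', ha', b', hb', rfl⟩ := (hY y' hy').2
      have e : g + a + b - (g + a' + b') = (a - a') + (b - b') := by abel
      rw [e, map_add]
      exact AddSubgroup.add_mem_sup (phi_H (AddSubgroup.sub_mem _ ha ha'))
        (phi_H (AddSubgroup.sub_mem _ hb hb'))
    · intro y hy y' hy' he
      obtain ⟨a, ha, b, hb, ha2⟩ := (hY y hy).2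
      obtain ⟨a', ha', b', hb', ha2'⟩ := (hY y' hy').2
      have e : y - y' = (a - a') + (b - b') := by
        rw [ha2, ha2']
        abel
      have hα : a - a' ∈ H k i.1 k := AddSubgroup.sub_mem _ ha ha'
      have hβ : b - b' ∈ H k j.1 k := AddSubgroup.sub_mem _ hb hb'
      rw [e, map_add] at he
      have hle : H k i.1 1 ≤ H k i.1 k := by
        intro z hz
        rw [mem_H] at hz ⊢
        obtain ⟨l, hl⟩ := pow_dvd_pow i.1 (show 1 ≤ k by have := h.hk; omega)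
        rw [hl, mul_comm, mul_nsmul', hz, smul_zero]
      have h1 : phi (DS Q / i.1) (cr Q x % (DS Q / i.1)) (b - b') = 0 := by
        refine H_cap (cop_ij hQ hij) ?_ (phi_H hβ)
        have h2 := AddSubgroup.sub_mem _ (hle he)
          (phi_H (D := DS Q / i.1) (x := cr Q x % (DS Q / i.1)) hα)
        rwa [add_sub_cancel_left] at h2
      rw [h1, add_zero] at he
      refine (hY2 y' hy' y hy ⟨a - a', (mHF (hpos i)).2 (f5 i _ _ hα he), b - b', ?_, ?_⟩).symm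
      · -- the second label
        obtain ⟨E, hE⟩ := dvd_ij hQ hij
        have h3 := hCO.1 k E j.1 (cr Q x % (DS Q / i.1) / j.1)
          (cr Q x % (DS Q / i.1) % j.1) (b - b')
        rw [Nat.mod_add_div, mul_comm E, ← hE, h1, f1' i j x hij] at h3
        refine (hKr j _ _).2 ?_
        refine hCO.2.2.1 k E _ (j.1 ^ k) _ ?_ ?_ h3
        · refine Nat.Coprime.pow_right k ?_
          have h5 : DS Q = j.1 * (i.1 * E) := by
            rw [← mul_i hQ i, hE]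
            ring
          have h6 : DS Q / j.1 = i.1 * E := by
            rw [h5, Nat.mul_div_cancel_left _ (hne j)]
          exact Nat.Coprime.coprime_dvd_left (h6 ▸ Dvd.intro_left _ rfl) (cop_i hQ j)
        · rw [← map_nsmul, mem_H.1 hβ, map_zero]
      · rw [add_assoc, ← e]
        abel

end Pool.Agent.H79.EW
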