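import Pool.Agent.H26.EW.TargetsT

/-!
# Row WSM: the sets of the seen points are monotone (helper79)
-/

set_option autoImplicit false

open Finset MeasureTheory

namespace Pool.Agent.H79.EW

open Pool.Agent.H24.CL Pool.Agent.H24.LV Pool.Agent.H26.EW

theorem pf_WSM : T_WSM := by
  rintro k N R R' M M' hR hM hMM w ⟨q, f, η, τ, ξ, h1, h2, h3, h4, h5, h6, h7, h8, h9⟩
  refine ⟨q, f, η, τ, ξ, h1, h2.trans hR, h3, h4, fun i hi => (h5 i hi).trans ?_, h6, h7, h8,
    (one_div_le_one_div_of_le hM hMM).trans h9⟩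
  exact mul_le_mul_of_nonneg_right hR (Real.rpow_nonneg (Nat.cast_nonneg N) _)

end Pool.Agent.H79.EW
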