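import Pool.Agent.H79.PL.Star
import Pool.Agent.H79.EST.All
import Pool.Agent.H79.EW.SEE
import Pool.Agent.H79.EW.WOK
import Pool.Agent.H79.EW.WSM
import Pool.Agent.H38.EW.CRP
import Pool.Agent.H38.EW.EDG
import Pool.Agent.H38.EW.INT
import Pool.Agent.H31.EW.WEH
import Pool.Agent.H53.EW.SEN
import Pool.Agent.H26.EWR.SLB
import Pool.Agent.H26.EWR.WKB
import Pool.Agent.H26.EWR.DRP
import Pool.Agent.H65.PLH.Lad

/-!
# The critical mean value by ladders: the closed theorems but for the row GLO (helper79)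
-/

set_option autoImplicit false

namespace Pool.Agent.H79.EW

open Pool.Agent.H24.LVP Pool.Agent.H24.CL Pool.Agent.H79.PL Pool.Agent.H26.EW

theorem wCRP : T_CRP := Pool.Agent.H38.EW.pf_CRP

theorem wWOK : T_WOK := pf_WOK aCO sSHP wCRP

theorem wINT : T_INT := Pool.Agent.H38.EW.pf_INT aAI

theorem wEDG : T_EDG := Pool.Agent.H38.EW.pf_EDG aCO wCRP

theorem wSEN : T_SEN := Pool.Agent.H53.EW.pf_SEN rMP aCO wCRP wWOK
  pf_SLB pf_WKB pf_DRP

theorem wWEH : T_WEH := Pool.Agent.H31.EW.pf_WEH aCO awDL awTF awEQ awRU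

theorem see_of (hGLO : T_GLO) : Pool.Agent.H79.HF.T_SEE fun L => L :=
  pf_SEE aWT aFP aPP aGM sSHP sGMP sPRP wEDG hGLO wSEN wWEH pf_WSM

/-- the critical mean value -/
theorem closed_of (hGLO : T_GLO) : ∀ k : ℕ, 3 ≤ k → ∃ C : ℝ, ∀ N : ℕ, 1 ≤ N →
    ((Pool.Agent.H22.VM.sols (k * (k + 1) / 2) k N).card : ℝ) ≤
      C * (N : ℝ) ^ (k * (k + 1) / 2) * (1 + Real.log N) ^ (1 / 2 : ℝ) :=
  Pool.Agent.H65.PLH.lad_of_see (see_of hGLO)

end Pool.Agent.H79.EW
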